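import Mathlib

namespace Pool.Agent.W539.DI

open Module

/-- A nondegenerate symmetric real bilinear form: a subspace where it is nonnegative and a
subspace where it is nonpositive have dimensions of sum at most the dimension. -/
theorem semi_real {V : Type*} [AddCommGroup V] [Module ℝ V] [FiniteDimensional ℝ V]
    (B : LinearMap.BilinForm ℝ V) (hs : B.IsSymm) (hn : B.Nondegenerate)
    (W₁ W₂ : Submodule ℝ V) (h₁ : ∀ x ∈ W₁, 0 ≤ B x x) (h₂ : ∀ x ∈ W₂, B x x ≤ 0) :
    finrank ℝ W₁ + finrank ℝ W₂ ≤ finrank ℝ V := by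
  have key : ∀ (W : Submodule ℝ V) (s : ℝ), (∀ x ∈ W, 0 ≤ s * B x x) → s ≠ 0 →
      ∀ z ∈ W, B z z = 0 → ∀ w ∈ W, B z w = 0 := by
    intro W s hW hs0 z hz hzz w hw
    by_contra hne
    have hsym : B w z = B z w := (hs.eq z w).symm
    -- s * B (w + t z) (w + t z) = s * (B w w + 2 t B z w)
    have hval : ∀ t : ℝ, 0 ≤ s * (B w w + 2 * t * B z w) := by
      intro t
      have := hW (w + t • z) (W.add_mem hw (W.smul_mem t hz))
      have e : B (w + t • z) (w + t • z) = B w w + 2 * t * B z w := by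
        simp only [map_add, map_smul, LinearMap.add_apply, LinearMap.smul_apply, smul_eq_mul,
          hzz, hsym]
        ring
      rw [e] at this
      exact this
    have hsb : s * B z w ≠ 0 := mul_ne_zero hs0 hne
    have := hval (-(s * B w w + 1) / (2 * (s * B z w)))
    have e2 : s * (B w w + 2 * (-(s * B w w + 1) / (2 * (s * B z w))) * B z w) = -1 := by
      field_simp
      ring
    rw [e2] at this
    linarith
  -- Z = W₁ ⊓ W₂
  have hZ : ∀ z ∈ W₁ ⊓ W₂, B z z = 0 := fun z hz =>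
    le_antisymm (h₂ z hz.2) (h₁ z hz.1)
  have hle : W₁ ⊔ W₂ ≤ B.orthogonal (W₁ ⊓ W₂) := by
    refine sup_le ?_ ?_
    · intro w hw z hz
      exact key W₁ 1 (by simpa using h₁) one_ne_zero z hz.1 (hZ z hz) w hw
    · intro w hw z hz
      refine key W₂ (-1) (fun x hx => ?_) (by norm_num) z hz.2 (hZ z hz) w hw
      have := h₂ x hx
      linarith
  have h3 := Submodule.finrank_mono hle
  have h4 := LinearMap.BilinForm.finrank_orthogonal hn (W₁ ⊓ W₂)
  have h5 := Submodule.finrank_sup_add_finrank_inf_eq W₁ W₂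
  have h6 := Submodule.finrank_le (W₁ ⊓ W₂)
  omega

/-- The same for a real valued form on a subspace `T` of a complex vector space. -/
theorem semi_complex {R : Type*} [AddCommGroup R] [Module ℂ R] [FiniteDimensional ℂ R]
    (T W₁ W₂ : Submodule ℂ R) (hW₁ : W₁ ≤ T) (hW₂ : W₂ ≤ T) (β : R → R → ℝ)
    (hadd : ∀ x y z, β (x + y) z = β x z + β y z)
    (hsmul : ∀ (r : ℝ) x z, β ((r : ℂ) • x) z = r * β x z)
    (hsymm : ∀ x y, β x y = β y x)
    (hnd : ∀ x ∈ T, (∀ y ∈ T, β x y = 0) → x = 0)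
    (h₁ : ∀ x ∈ W₁, 0 ≤ β x x) (h₂ : ∀ x ∈ W₂, β x x ≤ 0) :
    finrank ℂ W₁ + finrank ℂ W₂ ≤ finrank ℂ T := by
  let B : LinearMap.BilinForm ℝ T := LinearMap.mk₂ ℝ (fun x y => β (x : R) (y : R))
    (fun x y z => hadd x y z)
    (fun r x z => by
      have := hsmul r (x : R) (z : R)
      simpa [Complex.coe_smul] using this)
    (fun x y z => by
      show β (x : R) ((y : R) + (z : R)) = _
      rw [hsymm, hadd, hsymm, hsymm (z : R)])
    (fun r x z => by
      have := hsmul r (z : R) (x : R)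
      rw [hsymm, hsymm (x : R)]
      simpa [Complex.coe_smul] using this)
  have hB : ∀ x y, B x y = β (x : R) (y : R) := fun x y => rfl
  have hs : B.IsSymm := ⟨fun x y => by simp only [hB]; exact hsymm _ _⟩
  have hn : B.Nondegenerate := by
    have : ∀ x, (∀ y, B x y = 0) → x = 0 := by
      intro x hx
      have := hnd (x : R) x.2 (fun y hy => hx ⟨y, hy⟩)
      exact Subtype.ext this
    refine ⟨this, ?_⟩
    intro y hy
    refine this y (fun x => ?_)
    rw [hB, hsymm]
    exact hy x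
  let V₁ : Submodule ℝ T := (Submodule.comap T.subtype W₁).restrictScalars ℝ
  let V₂ : Submodule ℝ T := (Submodule.comap T.subtype W₂).restrictScalars ℝ
  have := semi_real B hs hn V₁ V₂ (fun x hx => h₁ _ hx) (fun x hx => h₂ _ hx)
  have e1 : finrank ℝ V₁ = 2 * finrank ℂ W₁ := by
    have a : finrank ℝ V₁ = finrank ℝ (Submodule.comap T.subtype W₁) := rfl
    rw [a, finrank_real_of_complex]
    congr 1
    exact (Submodule.comapSubtypeEquivOfLe hW₁).finrank_eq
  have e2 : finrank ℝ V₂ = 2 * finrank ℂ W₂ := by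
    have a : finrank ℝ V₂ = finrank ℝ (Submodule.comap T.subtype W₂) := rfl
    rw [a, finrank_real_of_complex]
    congr 1
    exact (Submodule.comapSubtypeEquivOfLe hW₂).finrank_eq
  rw [e1, e2, finrank_real_of_complex] at this
  omega

end Pool.Agent.W539.DI
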