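import Pool.Agent.W539.DI.Defs
import Pool.Agent.W539.DI.Lin

open scoped ComplexConjugate
open Module

namespace Pool.Agent.W539.DI

variable {n : ℕ} (X : KRing n)

theorem KRing.mul_mem {p q p' q' : ℤ} {x y : X.R} (hx : x ∈ X.H (p, q)) (hy : y ∈ X.H (p', q')) :
    x * y ∈ X.H (p + p', q + q') := by
  have := SetLike.mul_mem_graded (A := X.H) hx hy
  simpa using this

theorem KRing.one_mem : (1 : X.R) ∈ X.H (0, 0) :=
  SetLike.one_mem_graded X.H

theorem KRing.pow_mem {z : X.R} (hz : z ∈ X.H (1, 1)) (m : ℕ) : z ^ m ∈ X.H (m, m) := by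
  induction m with
  | zero => simpa using X.one_mem
  | succ m ih =>
    rw [pow_succ]
    have := X.mul_mem ih hz
    simpa using this

theorem KRing.pow_mul_mem {z : X.R} (hz : z ∈ X.H (1, 1)) (m : ℕ) {p q : ℤ} {x : X.R}
    (hx : x ∈ X.H (p, q)) : z ^ m * x ∈ X.H (p + m, q + m) := by
  have := X.mul_mem (X.pow_mem hz m) hx
  rwa [add_comm (m : ℤ) p, add_comm (m : ℤ) q] at this

theorem KRing.ind {P : X.R → Prop} (h0 : P 0) (hadd : ∀ x y, P x → P y → P (x + y))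
    (hh : ∀ (p q : ℤ) (x : X.R), x ∈ X.H (p, q) → P x) (x : X.R) : P x :=
  DirectSum.Decomposition.inductionOn X.H h0 (fun {i} m => hh i.1 i.2 m m.2) hadd x

theorem KRing.central {z : X.R} (hz : z ∈ X.H (1, 1)) (x : X.R) : z * x = x * z := by
  refine X.ind (P := fun x => z * x = x * z) ?_ ?_ ?_ x
  · simp
  · intro x y hx hy
    rw [mul_add, add_mul, hx, hy]
  · intro p q x hx
    have := X.comm 1 1 p q z x hz hx
    rw [this]
    have e : (-1 : ℂ) ^ (((1 : ℤ) + 1) * (p + q)) = 1 := by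
      rw [zpow_mul]
      norm_num
    rw [e, one_smul]

theorem KRing.dual_of {p q : ℤ} {x : X.R} (hx : x ∈ X.H (p, q)) :
    X.dual x = Complex.I ^ (p + q) • x := by
  unfold KRing.dual
  have e : DirectSum.decompose X.H x = DirectSum.of (fun i => X.H i) (p, q) ⟨x, hx⟩ :=
    DirectSum.decompose_of_mem X.H hx
  simp only [LinearMap.comp_apply, LinearEquiv.coe_coe, DirectSum.decomposeLinearEquiv_apply, e]
  have := DirectSum.toModule_lof ℂ (ι := ℤ × ℤ) (M := fun i => X.H i)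
    (φ := fun pq : ℤ × ℤ => (Complex.I ^ (pq.1 + pq.2)) • (X.H pq).subtype) (p, q)
    (⟨x, hx⟩ : X.H (p, q))
  rw [DirectSum.lof_eq_of] at this
  rw [this]
  simp

theorem KRing.mukai_add_left (x y z : X.R) : X.mukai (x + y) z = X.mukai x z + X.mukai y z := by
  unfold KRing.mukai
  rw [map_add, add_mul, mul_add, map_add]

theorem KRing.mukai_add_right (x y z : X.R) : X.mukai x (y + z) = X.mukai x y + X.mukai x z := by
  unfold KRing.mukai
  rw [mul_add, mul_add, map_add]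

theorem KRing.mukai_smul_left (a : ℂ) (x z : X.R) : X.mukai (a • x) z = a * X.mukai x z := by
  unfold KRing.mukai
  rw [map_smul, smul_mul_assoc, mul_smul_comm, map_smul, smul_eq_mul]

theorem KRing.mukai_smul_right (a : ℂ) (x z : X.R) : X.mukai x (a • z) = a * X.mukai x z := by
  unfold KRing.mukai
  rw [mul_smul_comm, mul_smul_comm, map_smul, smul_eq_mul]

theorem KRing.mukai_hom {p q p' q' : ℤ} {x y : X.R} (hx : x ∈ X.H (p, q))
    (hy : y ∈ X.H (p', q')) : X.mukai x y = Complex.I ^ (p + q) *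
      ∑ m ∈ Finset.range (n + 1), ((1 : ℂ) / (2 ^ m * (m.factorial : ℂ))) *
        X.tr (X.c ^ m * (x * y)) := by
  unfold KRing.mukai KRing.expc
  rw [X.dual_of hx, smul_mul_assoc, mul_smul_comm, map_smul, smul_eq_mul, Finset.sum_mul,
    map_sum]
  congr 1
  refine Finset.sum_congr rfl fun m _ => ?_
  rw [smul_mul_assoc, map_smul, smul_eq_mul]

theorem KRing.mukai_zero {p q p' q' : ℤ} {x y : X.R} (hx : x ∈ X.H (p, q))
    (hy : y ∈ X.H (p', q')) (h : (n : ℤ) < p + p') : X.mukai x y = 0 := by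
  rw [X.mukai_hom hx hy, Finset.sum_eq_zero, mul_zero]
  intro m _
  rw [X.tr_van (p + p' + m) (q + q' + m) _ (X.pow_mul_mem X.c_mem m (X.mul_mem hx hy)) (by omega),
    mul_zero]

theorem KRing.mukai_top {p q p' q' : ℤ} {x y : X.R} (hx : x ∈ X.H (p, q))
    (hy : y ∈ X.H (p', q')) (h : p + p' = n) :
    X.mukai x y = Complex.I ^ (p + q) * X.tr (x * y) := by
  rw [X.mukai_hom hx hy]
  congr 1
  rw [Finset.sum_eq_single 0]
  · simp
  · intro m _ hm
    rw [X.tr_van (p + p' + m) (q + q' + m) _ (X.pow_mul_mem X.c_mem m (X.mul_mem hx hy)) (by omega),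
      mul_zero]
  · intro h0
    simp at h0

theorem I_zpow_conj (k : ℤ) : conj (Complex.I ^ k) = (-1 : ℂ) ^ k * Complex.I ^ k := by
  rw [map_zpow₀, Complex.conj_I, neg_eq_neg_one_mul, mul_zpow]

/-- Hermitian symmetry of the leading part in the parity `p + q = n` modulo two. -/
theorem KRing.mukai_conj {a b k : ℤ} (hab : a + b = n) {x y : X.R}
    (hx : x ∈ X.H (a + k, b + k)) (hy : y ∈ X.H (a - k, b - k)) :
    X.mukai y (X.bar x) = conj (X.mukai x (X.bar y)) := by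
  have hbx := X.bar_mem _ _ _ hx
  have hby := X.bar_mem _ _ _ hy
  rw [X.mukai_top hy hbx (by omega), X.mukai_top hx hby (by omega),
    RingHom.map_mul (starRingEnd ℂ), ← X.tr_bar,
    X.bar_mul, X.bar_bar, X.comm _ _ _ _ _ _ hbx hy, LinearMap.map_smul, smul_eq_mul,
    I_zpow_conj]
  have e1 : (a - k + (b - k) : ℤ) = n + (-2 * k) := by omega
  have e2 : (a + k + (b + k) : ℤ) = n + 2 * k := by omega
  have e3 : (b + k + (a + k) : ℤ) = n + 2 * k := by omega
  rw [e1, e2, e3]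
  have hI : Complex.I ^ ((n : ℤ) + 2 * k) = Complex.I ^ ((n : ℤ) + (-2 * k)) := by
    rw [zpow_add₀ Complex.I_ne_zero, zpow_add₀ Complex.I_ne_zero]
    congr 1
    rw [zpow_mul, zpow_mul]
    have h2 : (Complex.I : ℂ) ^ (2 : ℤ) = -1 := by
      rw [show (2 : ℤ) = ((2 : ℕ) : ℤ) from rfl, zpow_natCast, Complex.I_sq]
    have h3 : (Complex.I : ℂ) ^ (-2 : ℤ) = -1 := by
      rw [zpow_neg, h2]; norm_num
    rw [h2, h3]
  rw [hI, ← mul_assoc]
  congr 1
  have s1 : (-1 : ℂ) ^ (((n : ℤ) + 2 * k) * ((n : ℤ) + (-2 * k))) = (-1 : ℂ) ^ ((n : ℤ) + 2 * k) := by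
    have : Even ((((n : ℤ) + 2 * k) * ((n : ℤ) + (-2 * k))) - ((n : ℤ) + 2 * k)) := by
      have : (((n : ℤ) + 2 * k) * ((n : ℤ) + (-2 * k))) - ((n : ℤ) + 2 * k)
          = (n : ℤ) * ((n : ℤ) - 1) - 2 * (2 * k * k + k) := by ring
      rw [this]
      refine Even.sub (Int.even_mul_pred_self _) ⟨2 * k * k + k, by ring⟩
    have h4 : (-1 : ℂ) ^ ((((n : ℤ) + 2 * k) * ((n : ℤ) + (-2 * k))) - ((n : ℤ) + 2 * k)) = 1 :=
      Even.neg_one_zpow this
    rw [zpow_sub₀ (by norm_num)] at h4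
    have h5 : (-1 : ℂ) ^ ((n : ℤ) + 2 * k) ≠ 0 := zpow_ne_zero _ (by norm_num)
    field_simp at h4
    exact h4
  have s2 : (-1 : ℂ) ^ ((n : ℤ) + 2 * k) * (-1 : ℂ) ^ ((n : ℤ) + 2 * k) = 1 := by
    rw [← mul_zpow]; norm_num
  rw [s1]
  calc Complex.I ^ ((n : ℤ) + -2 * k)
      = ((-1 : ℂ) ^ ((n : ℤ) + 2 * k) * (-1 : ℂ) ^ ((n : ℤ) + 2 * k)) *
          Complex.I ^ ((n : ℤ) + -2 * k) := by rw [s2, one_mul]
    _ = _ := by ring

end Pool.Agent.W539.DI
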