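import Pool.Agent.W539.DI.Main

open scoped ComplexConjugate
open Module

namespace Pool.Agent.W539.DI

variable {n : ℕ}

theorem KRing.h_zero (X : KRing n) {p q : ℤ} (h : p < 0 ∨ q < 0 ∨ (n : ℤ) < p ∨ (n : ℤ) < q) :
    X.h p q = 0 := by
  by_cases h1 : p < 0 ∨ q < 0
  · exact X.h_neg h1
  · unfold KRing.h
    rw [X.van_top (by omega), finrank_bot]

theorem KRing.h_swap (X : KRing n) (p q : ℤ) : X.h p q = X.h q p := by
  let f : X.H (p, q) →ₛₗ[starRingEnd ℂ] X.H (q, p) :=
    { toFun := fun x => ⟨X.bar x, X.bar_mem _ _ _ x.2⟩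
      map_add' := fun x y => by ext; simp
      map_smul' := fun a x => by ext; simp [LinearMap.map_smulₛₗ] }
  let g : X.H (q, p) →ₛₗ[starRingEnd ℂ] X.H (p, q) :=
    { toFun := fun x => ⟨X.bar x, X.bar_mem _ _ _ x.2⟩
      map_add' := fun x y => by ext; simp
      map_smul' := fun a x => by ext; simp [LinearMap.map_smulₛₗ] }
  let e : X.H (p, q) ≃ₛₗ[starRingEnd ℂ] X.H (q, p) :=
    { f with
      invFun := g
      left_inv := fun x => Subtype.ext (X.bar_bar x)
      right_inv := fun x => Subtype.ext (X.bar_bar x) }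
  unfold KRing.h
  -- pass to the real dimension
  have h1 : finrank ℝ (X.H (p, q)) = finrank ℝ (X.H (q, p)) := by
    refine LinearEquiv.finrank_eq
      { toFun := fun x => e x
        map_add' := fun x y => map_add e x y
        map_smul' := fun r x => ?_
        invFun := fun x => e.symm x
        left_inv := fun x => e.symm_apply_apply x
        right_inv := fun x => e.apply_symm_apply x }
    have := e.map_smulₛₗ (r : ℂ) x
    rw [Complex.conj_ofReal] at this
    simpa [Complex.coe_smul] using this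
  rw [finrank_real_of_complex, finrank_real_of_complex] at h1
  omega

/-- The total dimension of the part of type `p - q = i`. -/
theorem KRing.total_all (X : KRing n) (p q : ℤ) (s : Finset ℤ)
    (hs : ∀ k, k ∉ s → p + k < 0 ∨ q + k < 0 ∨ (n : ℤ) < p + k ∨ (n : ℤ) < q + k) :
    finrank ℂ (⨆ k : ℤ, X.H (p + k, q + k) : Submodule ℂ X.R) = ∑ k ∈ s, X.h (p + k) (q + k) := by
  have key : (⨆ k : ℤ, X.H (p + k, q + k)) = X.F p q s := by
    apply le_antisymm
    · refine iSup_le fun k => ?_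
      by_cases hk : k ∈ s
      · exact le_iSup₂ (f := fun k (_ : k ∈ s) => X.H (p + k, q + k)) k hk
      · have : X.H (p + k, q + k) = ⊥ := by
          have hk' := hs k hk
          by_cases h1 : p + k < 0 ∨ q + k < 0
          · exact X.van _ _ h1
          · exact X.van_top (by omega)
        rw [this]
        exact bot_le
    · exact iSup₂_le fun k _ => le_iSup (fun k : ℤ => X.H (p + k, q + k)) k
  rw [key, X.finrank_F]

theorem FM.total_all {X Y : KRing n} (Φ : FM X Y) (p q : ℤ) (s : Finset ℤ)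
    (hs : ∀ k, k ∉ s → p + k < 0 ∨ q + k < 0 ∨ (n : ℤ) < p + k ∨ (n : ℤ) < q + k) :
    ∑ k ∈ s, X.h (p + k) (q + k) = ∑ k ∈ s, Y.h (p + k) (q + k) := by
  rw [← X.total_all p q s hs, ← Y.total_all p q s hs, ← Φ.hodge p q]
  exact (LinearEquiv.finrank_map_eq Φ.φ _).symm

theorem KRing.h00 (X : KRing n) : X.h 0 0 = 1 := X.conn

/-- Sums with only the first term. -/
theorem KRing.sum_first (X : KRing n) (p q : ℤ) (hn : n ≠ 0) (h : p < 2 ∨ q < 2) :
    ∑ i ∈ Finset.range n, X.h (p - 2 * i) (q - 2 * i) = X.h p q := by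
  rw [Finset.sum_eq_single 0]
  · simp
  · intro i _ hi
    apply X.h_neg
    omega
  · intro h0
    exfalso
    apply h0
    rw [Finset.mem_range]
    omega

/-- The Hodge numbers `h^{n-2,0}`, `h^{n-1,1}`, `h^{n-3,1}` are derived invariants. -/
theorem FM.edge {X Y : KRing n} (Φ : FM X Y) (hn : 2 ≤ n) :
    X.h (n - 2) 0 = Y.h (n - 2) 0 ∧ X.h (n - 1) 1 = Y.h (n - 1) 1 ∧
      X.h (n - 3) 1 = Y.h (n - 3) 1 := by
  obtain ⟨h1, h2⟩ := Φ.hodge_sums (n - 1) 1 (by omega)
  obtain ⟨h3, -⟩ := Φ.hodge_sums (n - 2) 2 (by omega)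
  have e1 : (((n - 1 : ℕ) : ℤ)) = n - 1 := by push_cast [Nat.cast_sub (show 1 ≤ n by omega)]; ring
  have e2 : (((n - 2 : ℕ) : ℤ)) = n - 2 := by push_cast [Nat.cast_sub hn]; ring
  rw [X.sum_first (((n - 1 : ℕ) : ℤ) - 1) (((1 : ℕ) : ℤ) - 1) (by omega) (by right; norm_num),
    Y.sum_first (((n - 1 : ℕ) : ℤ) - 1) (((1 : ℕ) : ℤ) - 1) (by omega) (by right; norm_num)] at h1
  rw [X.sum_first (((n - 1 : ℕ) : ℤ) - 2) (((1 : ℕ) : ℤ) - 2) (by omega) (by right; norm_num),
    Y.sum_first (((n - 1 : ℕ) : ℤ) - 2) (((1 : ℕ) : ℤ) - 2) (by omega) (by right; norm_num)] at h2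
  rw [X.sum_first (((n - 2 : ℕ) : ℤ) - 1) (((2 : ℕ) : ℤ) - 1) (by omega) (by right; norm_num),
    Y.sum_first (((n - 2 : ℕ) : ℤ) - 1) (((2 : ℕ) : ℤ) - 1) (by omega) (by right; norm_num)] at h3
  rw [e1] at h1 h2
  rw [e2] at h3
  have z : ∀ Z : KRing n, Z.h ((n : ℤ) - 1 - 2) (((1 : ℕ) : ℤ) - 2) = 0 := fun Z =>
    Z.h_neg (by right; norm_num)
  rw [z X, z Y] at h2
  have a1 : (n : ℤ) - 1 - 1 = n - 2 := by ring
  have a2 : (n : ℤ) - 2 - 1 = n - 3 := by ring
  rw [a1] at h1
  rw [a2] at h3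
  refine ⟨?_, ?_, ?_⟩
  · simpa using h1
  · simpa using h2
  · simpa using h3

/-- Dimension four, even degrees. -/
theorem FM.four_even {X Y : KRing 4} (Φ : FM X Y) (p q : ℤ) (hpq : Even (p + q)) :
    X.h p q = Y.h p q := by
  by_cases hout : p < 0 ∨ q < 0 ∨ ((4 : ℕ) : ℤ) < p ∨ ((4 : ℕ) : ℤ) < q
  · rw [X.h_zero hout, Y.h_zero hout]
  push_cast at hout
  obtain ⟨a1, a2⟩ := Φ.hodge_sums 2 2 rfl
  obtain ⟨b1, b2⟩ := Φ.hodge_sums 3 1 rfl
  obtain ⟨-, c2⟩ := Φ.hodge_sums 4 0 rfl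
  rw [X.sum_first _ _ (by norm_num) (by norm_num), Y.sum_first _ _ (by norm_num) (by norm_num)]
    at a1 a2 b1 b2 c2
  norm_num at a1 a2 b1 b2 c2
  rw [X.h00, Y.h00] at a2
  have b3 : ∀ Z : KRing 4, Z.h 1 (-1) = 0 := fun Z => Z.h_neg (by norm_num)
  have c3 : ∀ Z : KRing 4, Z.h 2 (-2) = 0 := fun Z => Z.h_neg (by norm_num)
  rw [b3, b3] at b2
  rw [c3, c3] at c2
  have s33 : ∀ Z : KRing 4, Z.h 3 3 = Z.h 1 1 := fun Z => by
    have := Z.h_symm (p := 1) (q := 1) 2 (by norm_num)
    norm_num at this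
    exact this.symm
  have s44 : ∀ Z : KRing 4, Z.h 4 4 = Z.h 0 0 := fun Z => by
    have := Z.h_symm (p := 0) (q := 0) 4 (by norm_num)
    norm_num at this
    exact this.symm
  have s42 : ∀ Z : KRing 4, Z.h 4 2 = Z.h 2 0 := fun Z => by
    have := Z.h_symm (p := 2) (q := 0) 2 (by norm_num)
    norm_num at this
    exact this.symm
  have hp0 : 0 ≤ p := by omega
  have hq0 : 0 ≤ q := by omega
  have hp4 : p ≤ 4 := by omega
  have hq4 : q ≤ 4 := by omega
  have two : X.h 2 2 = Y.h 2 2 := by omega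
  have t31 : X.h 3 1 = Y.h 3 1 := by omega
  have t40 : X.h 4 0 = Y.h 4 0 := by omega
  interval_cases p <;> interval_cases q <;>
    first
      | (exfalso; revert hpq; decide)
      | (rw [X.h00, Y.h00])
      | exact a1
      | exact two
      | exact b1
      | exact t31
      | exact t40
      | (rw [s33 X, s33 Y]; exact a1)
      | (rw [s44 X, s44 Y, X.h00, Y.h00])
      | (rw [s42 X, s42 Y]; exact b1)
      | (rw [X.h_swap, Y.h_swap]; exact b1)
      | (rw [X.h_swap, Y.h_swap]; exact t31)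
      | (rw [X.h_swap, Y.h_swap]; exact t40)
      | (rw [X.h_swap, Y.h_swap, s42 X, s42 Y]; exact b1)

/-- Dimension four, all degrees, if the numbers of holomorphic one-forms agree. -/
theorem FM.four_all {X Y : KRing 4} (Φ : FM X Y) (h10 : X.h 1 0 = Y.h 1 0) (p q : ℤ) :
    X.h p q = Y.h p q := by
  by_cases hev : Even (p + q)
  · exact Φ.four_even p q hev
  by_cases hout : p < 0 ∨ q < 0 ∨ ((4 : ℕ) : ℤ) < p ∨ ((4 : ℕ) : ℤ) < q
  · rw [X.h_zero hout, Y.h_zero hout]
  push_cast at hout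
  have t1 := Φ.total_all 1 0 {0, 1, 2, 3} (by
    intro k hk
    simp only [Finset.mem_insert, Finset.mem_singleton] at hk
    push_cast
    omega)
  have t3 := Φ.total_all 3 0 {0, 1} (by
    intro k hk
    simp only [Finset.mem_insert, Finset.mem_singleton] at hk
    push_cast
    omega)
  rw [Finset.sum_insert (by decide), Finset.sum_insert (by decide), Finset.sum_insert (by decide),
    Finset.sum_singleton, Finset.sum_insert (by decide), Finset.sum_insert (by decide),
    Finset.sum_insert (by decide), Finset.sum_singleton] at t1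
  rw [Finset.sum_insert (by decide), Finset.sum_singleton, Finset.sum_insert (by decide),
    Finset.sum_singleton] at t3
  norm_num at t1 t3
  have s32 : ∀ Z : KRing 4, Z.h 3 2 = Z.h 2 1 := fun Z => by
    have := Z.h_symm (p := 2) (q := 1) 1 (by norm_num)
    norm_num at this
    exact this.symm
  have s43 : ∀ Z : KRing 4, Z.h 4 3 = Z.h 1 0 := fun Z => by
    have := Z.h_symm (p := 1) (q := 0) 3 (by norm_num)
    norm_num at this
    exact this.symm
  have s41 : ∀ Z : KRing 4, Z.h 4 1 = Z.h 3 0 := fun Z => by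
    have := Z.h_symm (p := 3) (q := 0) 1 (by norm_num)
    norm_num at this
    exact this.symm
  rw [s32 X, s32 Y, s43 X, s43 Y] at t1
  rw [s41 X, s41 Y] at t3
  have t21 : X.h 2 1 = Y.h 2 1 := by omega
  have t30 : X.h 3 0 = Y.h 3 0 := by omega
  have hp0 : 0 ≤ p := by omega
  have hq0 : 0 ≤ q := by omega
  have hp4 : p ≤ 4 := by omega
  have hq4 : q ≤ 4 := by omega
  interval_cases p <;> interval_cases q <;>
    first
      | (exfalso; apply hev; decide)
      | exact h10
      | exact t21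
      | exact t30
      | (rw [s32 X, s32 Y]; exact t21)
      | (rw [s43 X, s43 Y]; exact h10)
      | (rw [s41 X, s41 Y]; exact t30)
      | (rw [X.h_swap, Y.h_swap]; exact h10)
      | (rw [X.h_swap, Y.h_swap]; exact t21)
      | (rw [X.h_swap, Y.h_swap]; exact t30)
      | (rw [X.h_swap, Y.h_swap, s32 X, s32 Y]; exact t21)
      | (rw [X.h_swap, Y.h_swap, s43 X, s43 Y]; exact h10)
      | (rw [X.h_swap, Y.h_swap, s41 X, s41 Y]; exact t30)

end Pool.Agent.W539.DI
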