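import Mathlib

open scoped ComplexConjugate

namespace Pool.Agent.W539.DI

/-- The cohomology of a connected compact Kähler manifold of complex dimension `n` (for instance a
smooth projective complex variety of dimension `n`), in linear algebra terms: the complex
cohomology ring with its Hodge decomposition `H (p, q)`, complex conjugation `bar`, the
integration map `tr`, a Kähler class `ω` satisfying the hard Lefschetz theorem and the
Hodge-Riemann bilinear relations, and a real class `c` of type `(1, 1)` (the first Chern class). -/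
structure KRing (n : ℕ) where
  /-- the cohomology ring with complex coefficients -/
  R : Type
  [ring : Ring R]
  [alg : Algebra ℂ R]
  [fin : FiniteDimensional ℂ R]
  /-- the Hodge decomposition: `H (p, q)` is the space of classes of type `(p, q)` -/
  H : ℤ × ℤ → Submodule ℂ R
  [gr : GradedRing H]
  /-- there are no classes of type `(p, q)` if `p` or `q` is negative -/
  van : ∀ p q : ℤ, (p < 0 ∨ q < 0) → H (p, q) = ⊥
  /-- the manifold is connected -/
  conn : Module.finrank ℂ (H (0, 0)) = 1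
  /-- the cup product is graded commutative -/
  comm : ∀ (p q p' q' : ℤ) (x y : R), x ∈ H (p, q) → y ∈ H (p', q') →
    x * y = ((-1 : ℂ) ^ ((p + q) * (p' + q'))) • (y * x)
  /-- complex conjugation -/
  bar : R →ₛₗ[starRingEnd ℂ] R
  bar_bar : ∀ x, bar (bar x) = x
  bar_mul : ∀ x y, bar (x * y) = bar x * bar y
  bar_mem : ∀ (p q : ℤ) (x : R), x ∈ H (p, q) → bar x ∈ H (q, p)
  /-- integration over the manifold -/
  tr : R →ₗ[ℂ] ℂ
  tr_van : ∀ (p q : ℤ) (x : R), x ∈ H (p, q) → ¬ (p = n ∧ q = n) → tr x = 0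
  tr_bar : ∀ x, tr (bar x) = conj (tr x)
  /-- Poincaré duality -/
  pd : ∀ (p q : ℤ) (x : R), x ∈ H (p, q) → (∀ y ∈ H (n - p, n - q), tr (x * y) = 0) → x = 0
  /-- the Kähler class -/
  ω : R
  ω_mem : ω ∈ H (1, 1)
  ω_bar : bar ω = ω
  /-- hard Lefschetz, injectivity of `ω ^ k` from degree `n - k` to degree `n + k` -/
  hl_inj : ∀ (p q : ℤ) (k : ℕ), p + q + k = n → ∀ x ∈ H (p, q), ω ^ k * x = 0 → x = 0
  /-- hard Lefschetz, surjectivity of `ω ^ k` from degree `n - k` to degree `n + k` -/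
  hl_surj : ∀ (p q : ℤ) (k : ℕ), p + q + k = n → ∀ y ∈ H (p + k, q + k),
    ∃ x ∈ H (p, q), ω ^ k * x = y
  /-- the Hodge-Riemann bilinear relations for primitive classes -/
  hr : ∀ (p q : ℤ) (k : ℕ), p + q + k = n → ∀ x ∈ H (p, q), x ≠ 0 → ω ^ (k + 1) * x = 0 →
    ∃ r : ℝ, 0 < r ∧ Complex.I ^ (p - q) * (-1 : ℂ) ^ ((p + q) * (p + q - 1) / 2) *
      tr (ω ^ k * (x * bar x)) = (r : ℂ)
  /-- the first Chern class, a real class of type `(1, 1)` -/
  c : R
  c_mem : c ∈ H (1, 1)
  c_bar : bar c = c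

attribute [instance] KRing.ring KRing.alg KRing.fin KRing.gr

variable {n : ℕ}

/-- The Hodge number `h^{p,q}`. -/
noncomputable def KRing.h (X : KRing n) (p q : ℤ) : ℕ := Module.finrank ℂ (X.H (p, q))

/-- The dual `v ↦ v^∨` of the Mukai pairing: multiplication by `i^{p+q}` on classes of
type `(p, q)`. -/
noncomputable def KRing.dual (X : KRing n) : X.R →ₗ[ℂ] X.R :=
  DirectSum.toModule ℂ (ℤ × ℤ) X.R
      (fun pq => (Complex.I ^ (pq.1 + pq.2)) • (X.H pq).subtype) ∘ₗ
    (DirectSum.decomposeLinearEquiv X.H).toLinearMap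

/-- The class `exp (c / 2)` (note that `c ^ (n + 1) = 0`). -/
noncomputable def KRing.expc (X : KRing n) : X.R :=
  ∑ m ∈ Finset.range (n + 1), ((1 : ℂ) / (2 ^ m * (m.factorial : ℂ))) • X.c ^ m

/-- The (generalised) Mukai pairing `⟨v, w⟩ = ∫ exp (c₁ / 2) v^∨ w`. -/
noncomputable def KRing.mukai (X : KRing n) (x y : X.R) : ℂ := X.tr (X.expc * (X.dual x * y))

/-- The cohomological shape of an equivalence of derived categories: a linear isomorphism which is
real, preserves the grading by `p - q`, and is an isometry for the Mukai pairings. -/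
structure FM (X Y : KRing n) where
  φ : X.R ≃ₗ[ℂ] Y.R
  real : ∀ x, φ (X.bar x) = Y.bar (φ x)
  hodge : ∀ p q : ℤ, Submodule.map (φ : X.R →ₗ[ℂ] Y.R) (⨆ k : ℤ, X.H (p + k, q + k)) =
    ⨆ k : ℤ, Y.H (p + k, q + k)
  isom : ∀ x y, Y.mukai (φ x) (φ y) = X.mukai x y

end Pool.Agent.W539.DI
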