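import Pool.Agent.W539.DI.Cor

open scoped ComplexConjugate
open Module

namespace Pool.Agent.W539.DI

variable {n : ℕ}

/-- The topological Euler number `∑ (-1)^(p+q) h^{p,q}`. -/
noncomputable def KRing.euler (X : KRing n) : ℤ :=
  ∑ p ∈ Finset.range (n + 1), ∑ q ∈ Finset.range (n + 1), (-1 : ℤ) ^ (p + q) * X.h p q

/-- The Euler characteristic `χ(O) = ∑ (-1)^q h^{0,q}`. -/
noncomputable def KRing.chi (X : KRing n) : ℤ :=
  ∑ q ∈ Finset.range (n + 1), (-1 : ℤ) ^ q * X.h 0 q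

/-- The number `∑ (-1)^(p+q) (2p-n)^2 h^{p,q}`. -/
noncomputable def KRing.moment (X : KRing n) : ℤ :=
  ∑ p ∈ Finset.range (n + 1), ∑ q ∈ Finset.range (n + 1),
    (-1 : ℤ) ^ (p + q) * (2 * (p : ℤ) - n) ^ 2 * X.h p q

/-- A fivefold `X` such that the line bundles `O(mH)`, `m ≥ 1`, are globally generated, where
`H = a K` is a nonzero (positive or negative) multiple of the canonical class `K = - c`, with its
Chern classes and with smooth members `D m` of the linear systems `|mH|`, which have `r m`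
connected components `D m i` (none if `H = 0`).

`lw` is the formula of Libgober and Wood for the Hodge numbers and `c₁c₄`; `adj` computes the
Euler number of `D m` by the adjunction formula `c(D) = c(X) (1 + m H)⁻¹`; `P t = χ(X, O(tH))`
is the Hilbert polynomial, `P_dual` is Serre duality and `P_adj` is the sequence
`0 → O(-mH) → O → O_D → 0`. -/
structure SemiAmp (X : KRing 5) (a : ℚ) (r : ℕ → ℕ) where
  /-- the Chern classes -/
  ch : ℕ → X.R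
  ch_zero : ch 0 = 1
  ch_one : ch 1 = X.c
  ch_mem : ∀ i : ℕ, ch i ∈ X.H (i, i)
  lw : (3 * X.moment : ℂ) = 5 * X.euler + 2 * X.tr (X.c * ch 4)
  /-- the connected components of smooth members of `|mH|` -/
  D : (m : ℕ) → Fin (r m) → KRing 4
  adj : ∀ m : ℕ, 1 ≤ m → ((∑ i, (D m i).euler : ℤ) : ℂ) =
    ∑ j ∈ Finset.range 5, (-1 : ℂ) ^ j * (m : ℂ) ^ (j + 1) *
      X.tr ((-(a : ℂ) • X.c) ^ (j + 1) * ch (4 - j))
  /-- the Hilbert polynomial -/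
  P : Polynomial ℚ
  P_zero : P.eval 0 = X.chi
  P_dual : ∀ t : ℚ, P.eval t = - P.eval (1 / a - t)
  P_adj : ∀ m : ℕ, 1 ≤ m → P.eval 0 - P.eval (-(m : ℚ)) = (∑ i, (D m i).chi : ℤ)

theorem sum6 (f : ℕ → ℤ) : ∑ i ∈ Finset.range (5 + 1), f i =
    f 0 + f 1 + f 2 + f 3 + f 4 + f 5 := by
  simp [Finset.sum_range_succ]

/-- Odd degrees in dimension five. -/
theorem FM.five_odd {X Y : KRing 5} (Φ : FM X Y) (h10 : X.h 1 0 = Y.h 1 0) :
    X.h 2 1 = Y.h 2 1 ∧ X.h 3 0 = Y.h 3 0 ∧ X.h 3 2 = Y.h 3 2 ∧ X.h 4 1 = Y.h 4 1 ∧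
      X.h 5 0 = Y.h 5 0 := by
  obtain ⟨a1, a2⟩ := Φ.hodge_sums 3 2 rfl
  obtain ⟨b1, b2⟩ := Φ.hodge_sums 4 1 rfl
  obtain ⟨-, c2⟩ := Φ.hodge_sums 5 0 rfl
  rw [X.sum_first _ _ (by norm_num) (by norm_num), Y.sum_first _ _ (by norm_num) (by norm_num)]
    at a1 a2 b1 b2 c2
  norm_num at a1 a2 b1 b2 c2
  have b3 : ∀ Z : KRing 5, Z.h 2 (-1) = 0 := fun Z => Z.h_neg (by norm_num)
  have c3 : ∀ Z : KRing 5, Z.h 3 (-2) = 0 := fun Z => Z.h_neg (by norm_num)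
  rw [b3, b3] at b2
  rw [c3, c3] at c2
  refine ⟨a1, b1, ?_, ?_, ?_⟩ <;> omega

theorem KRing.dual5 (Z : KRing 5) : Z.h 3 3 = Z.h 2 2 ∧ Z.h 4 4 = Z.h 1 1 ∧ Z.h 5 5 = Z.h 0 0 ∧
    Z.h 4 2 = Z.h 3 1 ∧ Z.h 5 3 = Z.h 2 0 ∧ Z.h 5 1 = Z.h 4 0 ∧ Z.h 4 3 = Z.h 2 1 ∧
    Z.h 5 4 = Z.h 1 0 ∧ Z.h 5 2 = Z.h 3 0 := by
  have a1 := Z.h_symm (p := 2) (q := 2) 1 (by norm_num)
  have a2 := Z.h_symm (p := 1) (q := 1) 3 (by norm_num)
  have a3 := Z.h_symm (p := 0) (q := 0) 5 (by norm_num)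
  have a4 := Z.h_symm (p := 3) (q := 1) 1 (by norm_num)
  have a5 := Z.h_symm (p := 2) (q := 0) 3 (by norm_num)
  have a6 := Z.h_symm (p := 4) (q := 0) 1 (by norm_num)
  have a7 := Z.h_symm (p := 2) (q := 1) 2 (by norm_num)
  have a8 := Z.h_symm (p := 1) (q := 0) 4 (by norm_num)
  have a9 := Z.h_symm (p := 3) (q := 0) 2 (by norm_num)
  norm_num at a1 a2 a3 a4 a5 a6 a7 a8 a9
  exact ⟨a1.symm, a2.symm, a3.symm, a4.symm, a5.symm, a6.symm, a7.symm, a8.symm, a9.symm⟩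

/-- The sums over the even columns in dimension five. -/
theorem FM.five_even {X Y : KRing 5} (Φ : FM X Y) :
    X.h 1 1 + X.h 2 2 = Y.h 1 1 + Y.h 2 2 ∧ X.h 2 0 + X.h 3 1 = Y.h 2 0 + Y.h 3 1 ∧
      X.h 4 0 = Y.h 4 0 := by
  have t0 := Φ.total_all 0 0 {0, 1, 2, 3, 4, 5} (by
    intro k hk
    simp only [Finset.mem_insert, Finset.mem_singleton] at hk
    push_cast
    omega)
  have t2 := Φ.total_all 2 0 {0, 1, 2, 3} (by
    intro k hk
    simp only [Finset.mem_insert, Finset.mem_singleton] at hk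
    push_cast
    omega)
  have t4 := Φ.total_all 4 0 {0, 1} (by
    intro k hk
    simp only [Finset.mem_insert, Finset.mem_singleton] at hk
    push_cast
    omega)
  rw [Finset.sum_insert (by decide), Finset.sum_insert (by decide), Finset.sum_insert (by decide),
    Finset.sum_insert (by decide), Finset.sum_insert (by decide), Finset.sum_singleton,
    Finset.sum_insert (by decide), Finset.sum_insert (by decide), Finset.sum_insert (by decide),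
    Finset.sum_insert (by decide), Finset.sum_insert (by decide), Finset.sum_singleton] at t0
  rw [Finset.sum_insert (by decide), Finset.sum_insert (by decide), Finset.sum_insert (by decide),
    Finset.sum_singleton, Finset.sum_insert (by decide), Finset.sum_insert (by decide),
    Finset.sum_insert (by decide), Finset.sum_singleton] at t2
  rw [Finset.sum_insert (by decide), Finset.sum_singleton, Finset.sum_insert (by decide),
    Finset.sum_singleton] at t4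
  norm_num at t0 t2 t4
  obtain ⟨x1, x2, x3, x4, x5, x6, x7, x8, x9⟩ := X.dual5
  obtain ⟨y1, y2, y3, y4, y5, y6, y7, y8, y9⟩ := Y.dual5
  rw [x1, x2, x3, y1, y2, y3, X.h00, Y.h00] at t0
  rw [x4, x5, y4, y5] at t2
  rw [x6, y6] at t4
  refine ⟨?_, ?_, ?_⟩ <;> omega

/-- Dimension five: all Hodge numbers, from `c₁c₄` (through the moment) and `χ(O)`. -/
theorem FM.five_all {X Y : KRing 5} (Φ : FM X Y) (h10 : X.h 1 0 = Y.h 1 0)
    (hm : 3 * X.moment - 5 * X.euler = 3 * Y.moment - 5 * Y.euler) (hχ : X.chi = Y.chi)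
    (p q : ℤ) : X.h p q = Y.h p q := by
  obtain ⟨o1, o2, o3, o4, o5⟩ := Φ.five_odd h10
  obtain ⟨e1, e2, e3⟩ := Φ.five_even
  obtain ⟨x1, x2, x3, x4, x5, x6, x7, x8, x9⟩ := X.dual5
  obtain ⟨y1, y2, y3, y4, y5, y6, y7, y8, y9⟩ := Y.dual5
  have sw : ∀ Z : KRing 5, Z.h 0 1 = Z.h 1 0 ∧ Z.h 0 2 = Z.h 2 0 ∧ Z.h 0 3 = Z.h 3 0 ∧
      Z.h 0 4 = Z.h 4 0 ∧ Z.h 0 5 = Z.h 5 0 ∧ Z.h 1 2 = Z.h 2 1 ∧ Z.h 1 3 = Z.h 3 1 ∧
      Z.h 1 4 = Z.h 4 1 ∧ Z.h 1 5 = Z.h 5 1 ∧ Z.h 2 3 = Z.h 3 2 ∧ Z.h 2 4 = Z.h 4 2 ∧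
      Z.h 2 5 = Z.h 5 2 ∧ Z.h 3 4 = Z.h 4 3 ∧ Z.h 3 5 = Z.h 5 3 ∧ Z.h 4 5 = Z.h 5 4 := fun Z =>
    ⟨Z.h_swap _ _, Z.h_swap _ _, Z.h_swap _ _, Z.h_swap _ _, Z.h_swap _ _, Z.h_swap _ _,
      Z.h_swap _ _, Z.h_swap _ _, Z.h_swap _ _, Z.h_swap _ _, Z.h_swap _ _, Z.h_swap _ _,
      Z.h_swap _ _, Z.h_swap _ _, Z.h_swap _ _⟩
  obtain ⟨u1, u2, u3, u4, u5, u6, u7, u8, u9, u10, u11, u12, u13, u14, u15⟩ := sw X
  obtain ⟨v1, v2, v3, v4, v5, v6, v7, v8, v9, v10, v11, v12, v13, v14, v15⟩ := sw Y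
  have hχ' : ∀ Z : KRing 5, Z.chi = Z.h 0 0 - Z.h 0 1 + Z.h 0 2 - Z.h 0 3 + Z.h 0 4 - Z.h 0 5 := by
    intro Z
    unfold KRing.chi
    rw [sum6]
    norm_num
    ring
  have k20 : X.h 2 0 = Y.h 2 0 := by
    rw [hχ', hχ', X.h00, Y.h00, u1, u2, u3, u4, u5, v1, v2, v3, v4, v5, h10, o2, o5, e3] at hχ
    omega
  have hmo : ∀ Z : KRing 5, 3 * Z.moment - 5 * Z.euler =
      70 * (∑ q ∈ Finset.range 6, (-1 : ℤ) ^ q * Z.h 0 q)
      + 22 * (∑ q ∈ Finset.range 6, (-1 : ℤ) ^ (1 + q) * Z.h 1 q)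
      - 2 * (∑ q ∈ Finset.range 6, (-1 : ℤ) ^ (2 + q) * Z.h 2 q)
      - 2 * (∑ q ∈ Finset.range 6, (-1 : ℤ) ^ (3 + q) * Z.h 3 q)
      + 22 * (∑ q ∈ Finset.range 6, (-1 : ℤ) ^ (4 + q) * Z.h 4 q)
      + 70 * (∑ q ∈ Finset.range 6, (-1 : ℤ) ^ (5 + q) * Z.h 5 q) := by
    intro Z
    unfold KRing.moment KRing.euler
    rw [sum6, sum6]
    simp only [Finset.sum_range_succ, Finset.sum_range_zero]
    push_cast
    ring
  have k11 : X.h 1 1 = Y.h 1 1 := by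
    rw [hmo, hmo] at hm
    simp only [Finset.sum_range_succ, Finset.sum_range_zero] at hm
    push_cast at hm
    norm_num at hm
    rw [X.h00, Y.h00, x1, x2, x3, x4, x5, x6, x7, x8, x9, y1, y2, y3, y4, y5, y6, y7, y8, y9] at hm
    rw [u1, u2, u3, u4, u5, u6, u7, u8, u9, u10, u11, u12, u13, u14, u15,
      v1, v2, v3, v4, v5, v6, v7, v8, v9, v10, v11, v12, v13, v14, v15] at hm
    rw [x4, x5, x6, x7, x8, x9, y4, y5, y6, y7, y8, y9, h10, o1, o2, o3, o4, o5, e3, k20] at hm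
    have g1 := X.h00
    have g2 := Y.h00
    omega
  have k22 : X.h 2 2 = Y.h 2 2 := by omega
  have k31 : X.h 3 1 = Y.h 3 1 := by omega
  by_cases hout : p < 0 ∨ q < 0 ∨ ((5 : ℕ) : ℤ) < p ∨ ((5 : ℕ) : ℤ) < q
  · rw [X.h_zero hout, Y.h_zero hout]
  push_cast at hout
  have hp0 : 0 ≤ p := by omega
  have hq0 : 0 ≤ q := by omega
  have hp4 : p ≤ 5 := by omega
  have hq4 : q ≤ 5 := by omega
  have g00 : X.h 0 0 = Y.h 0 0 := by rw [X.h00, Y.h00]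
  interval_cases p <;> interval_cases q <;> omega

end Pool.Agent.W539.DI
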