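import Pool.Agent.W539.DI.Five

open scoped ComplexConjugate
open Module

namespace Pool.Agent.W539.DI

theorem euler_congr {n : ℕ} {X Y : KRing n} (h : ∀ p q : ℤ, X.h p q = Y.h p q) :
    X.euler = Y.euler := by
  unfold KRing.euler
  simp only [h]

theorem chi_congr {n : ℕ} {X Y : KRing n} (h : ∀ p q : ℤ, X.h p q = Y.h p q) :
    X.chi = Y.chi := by
  unfold KRing.chi
  simp only [h]

variable {X Y : KRing 5} {a : ℚ} {r : ℕ → ℕ}

/-- `χ(O)` is determined by the Euler characteristics of the pluricanonical divisors. -/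
theorem SemiAmp.chi_eq (S : SemiAmp X a r) (T : SemiAmp Y a r)
    (h : ∀ m, 1 ≤ m → ∀ i, (S.D m i).chi = (T.D m i).chi) : X.chi = Y.chi := by
  have h1 : S.P - T.P = Polynomial.C ((S.P - T.P).eval 0) := by
    apply Polynomial.eq_of_infinite_eval_eq
    have hinf : (Set.range (fun m : ℕ => -((m + 1 : ℕ) : ℚ))).Infinite := by
      apply Set.infinite_range_of_injective
      intro i j hij
      have : -((i + 1 : ℕ) : ℚ) = -((j + 1 : ℕ) : ℚ) := hij
      have h2 := neg_injective this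
      have h3 : i + 1 = j + 1 := by exact_mod_cast h2
      omega
    refine hinf.mono ?_
    rintro _ ⟨m, rfl⟩
    show (S.P - T.P).eval (-((m + 1 : ℕ) : ℚ)) = _
    rw [Polynomial.eval_C, Polynomial.eval_sub, Polynomial.eval_sub]
    have e1 := S.P_adj (m + 1) (by omega)
    have e2 := T.P_adj (m + 1) (by omega)
    rw [Finset.sum_congr rfl (fun i _ => h (m + 1) (by omega) i), ← e2] at e1
    linarith
  have h2 := S.P_dual 0
  have h3 := T.P_dual 0
  have h4 := congrArg (Polynomial.eval (1 / a - 0)) h1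
  rw [Polynomial.eval_C, Polynomial.eval_sub, Polynomial.eval_sub] at h4
  have h5 : (X.chi : ℚ) = Y.chi := by
    rw [← S.P_zero, ← T.P_zero]
    linarith
  exact_mod_cast h5

/-- `c₁c₄` is determined by the Euler numbers of the pluricanonical divisors. -/
theorem SemiAmp.tr_eq (S : SemiAmp X a r) (T : SemiAmp Y a r) (ha : a ≠ 0)
    (h : ∀ m, 1 ≤ m → ∀ i, (S.D m i).euler = (T.D m i).euler) :
    X.tr (X.c * S.ch 4) = Y.tr (Y.c * T.ch 4) := by
  let A : ℕ → ℂ := fun j => X.tr ((-(a : ℂ) • X.c) ^ (j + 1) * S.ch (4 - j)) -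
    Y.tr ((-(a : ℂ) • Y.c) ^ (j + 1) * T.ch (4 - j))
  let R : Polynomial ℂ := ∑ j ∈ Finset.range 5,
    Polynomial.C ((-1 : ℂ) ^ j * A j) * Polynomial.X ^ (j + 1)
  have hR : R = 0 := by
    apply Polynomial.eq_of_infinite_eval_eq
    have hinf : (Set.range (fun m : ℕ => ((m + 1 : ℕ) : ℂ))).Infinite := by
      apply Set.infinite_range_of_injective
      intro i j hij
      have : ((i + 1 : ℕ) : ℂ) = ((j + 1 : ℕ) : ℂ) := hij
      have h3 : i + 1 = j + 1 := by exact_mod_cast this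
      omega
    refine hinf.mono ?_
    rintro _ ⟨m, rfl⟩
    show R.eval (((m + 1 : ℕ) : ℂ)) = _
    rw [Polynomial.eval_zero, Polynomial.eval_finset_sum]
    have e1 := S.adj (m + 1) (by omega)
    have e2 := T.adj (m + 1) (by omega)
    rw [Finset.sum_congr rfl (fun i _ => h (m + 1) (by omega) i), e2] at e1
    rw [← sub_eq_zero, ← Finset.sum_sub_distrib] at e1
    rw [← neg_eq_zero, ← e1, ← Finset.sum_neg_distrib]
    refine Finset.sum_congr rfl fun j _ => ?_
    simp only [Polynomial.eval_mul, Polynomial.eval_C, Polynomial.eval_pow, Polynomial.eval_X, A]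
    ring
  have h1 : R.coeff 1 = A 0 := by
    simp only [R, Finset.sum_range_succ, Finset.sum_range_zero, Polynomial.coeff_add,
      Polynomial.coeff_C_mul, Polynomial.coeff_X_pow]
    norm_num
  rw [hR, Polynomial.coeff_zero] at h1
  have h2 : X.tr ((-(a : ℂ) • X.c) ^ (0 + 1) * S.ch (4 - 0)) =
      Y.tr ((-(a : ℂ) • Y.c) ^ (0 + 1) * T.ch (4 - 0)) := sub_eq_zero.mp h1.symm
  rw [zero_add, pow_one, pow_one, smul_mul_assoc, smul_mul_assoc, map_smul, map_smul] at h2
  have ha' : (-(a : ℂ)) ≠ 0 := by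
    rw [neg_ne_zero]
    exact_mod_cast ha
  exact mul_left_cancel₀ ha' h2

/-- Derived equivalent fivefolds with semiample canonical or anticanonical bundle. -/
theorem FM.five_semiample (Φ : FM X Y) (h10 : X.h 1 0 = Y.h 1 0) (ha : a ≠ 0)
    (S : SemiAmp X a r) (T : SemiAmp Y a r)
    (h : ∀ m, 1 ≤ m → ∀ i, Nonempty (FM (S.D m i) (T.D m i)) ∧
      (S.D m i).h 1 0 = (T.D m i).h 1 0) (p q : ℤ) : X.h p q = Y.h p q := by
  have hD : ∀ m, 1 ≤ m → ∀ i, ∀ p q : ℤ, (S.D m i).h p q = (T.D m i).h p q := by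
    intro m hm i
    obtain ⟨⟨Ψ⟩, h1⟩ := h m hm i
    exact Ψ.four_all h1
  have e1 := S.chi_eq T fun m hm i => chi_congr (hD m hm i)
  have e2 := S.tr_eq T ha fun m hm i => euler_congr (hD m hm i)
  refine Φ.five_all h10 ?_ e1 p q
  have l1 := S.lw
  have l2 := T.lw
  rw [e2] at l1
  have : ((3 * X.moment - 5 * X.euler : ℤ) : ℂ) = ((3 * Y.moment - 5 * Y.euler : ℤ) : ℂ) := by
    push_cast
    rw [l1, l2]
    ring
  exact_mod_cast this

end Pool.Agent.W539.DI
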