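import Pool.Agent.W539.DI.Basic

open scoped ComplexConjugate
open Module

namespace Pool.Agent.W539.DI

theorem finrank_iSup_finset {ι V : Type*} [AddCommGroup V] [Module ℂ V] [FiniteDimensional ℂ V]
    (A : ι → Submodule ℂ V) (hA : iSupIndep A) (s : Finset ι) :
    finrank ℂ (⨆ i ∈ s, A i : Submodule ℂ V) = ∑ i ∈ s, finrank ℂ (A i) := by
  classical
  induction s using Finset.induction_on with
  | empty => simp
  | insert a s ha ih =>
    rw [Finset.iSup_insert, Finset.sum_insert ha, ← ih]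
    have hd : Disjoint (A a) (⨆ i ∈ s, A i) := by
      have := hA.disjoint_biSup (x := a) (y := (s : Set ι)) (by simpa using ha)
      simpa using this
    have h1 := Submodule.finrank_sup_add_finrank_inf_eq (A a) (⨆ i ∈ s, A i)
    rw [hd.eq_bot, finrank_bot, add_zero] at h1
    exact h1

variable {n : ℕ} (X : KRing n)

theorem KRing.indep (a b : ℤ) : iSupIndep (fun k : ℤ => X.H (a + k, b + k)) := by
  have h := (DirectSum.Decomposition.isInternal X.H).submodule_iSupIndep
  exact h.comp (f := fun k : ℤ => ((a + k, b + k) : ℤ × ℤ)) (fun k l hkl => by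
    have := congrArg Prod.fst hkl
    simpa using this)

/-- The sum of the `H (a + k, b + k)` for `k` in `s`. -/
def KRing.F (X : KRing n) (a b : ℤ) (s : Finset ℤ) : Submodule ℂ X.R :=
  ⨆ k ∈ s, X.H (a + k, b + k)

theorem KRing.finrank_F (a b : ℤ) (s : Finset ℤ) :
    finrank ℂ (X.F a b s) = ∑ k ∈ s, X.h (a + k) (b + k) :=
  finrank_iSup_finset _ (X.indep a b) s

theorem KRing.van_top {p q : ℤ} (h : (n : ℤ) < p ∨ (n : ℤ) < q) : X.H (p, q) = ⊥ := by
  by_cases hpq : (n : ℤ) ≤ p + q
  · obtain ⟨k, hk⟩ := Int.eq_ofNat_of_zero_le (show 0 ≤ p + q - n by omega)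
    rw [eq_bot_iff]
    intro y hy
    have e : ((p, q) : ℤ × ℤ) = ((n : ℤ) - q + k, (n : ℤ) - p + k) := by
      ext <;> simp <;> omega
    rw [e] at hy
    obtain ⟨x, hx, hxy⟩ := X.hl_surj (n - q) (n - p) k (by omega) y hy
    rw [X.van (n - q) (n - p) (by omega)] at hx
    rw [Submodule.mem_bot] at hx ⊢
    rw [← hxy, hx, mul_zero]
  · exact X.van p q (by omega)

theorem KRing.F_all {a b : ℤ} (hab : a + b = n) :
    (⨆ k : ℤ, X.H (a + k, b + k)) = X.F a b (Finset.Icc (-(n : ℤ)) n) := by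
  apply le_antisymm
  · refine iSup_le fun k => ?_
    by_cases hk : k ∈ Finset.Icc (-(n : ℤ)) n
    · exact le_iSup₂ (f := fun k (_ : k ∈ Finset.Icc (-(n : ℤ)) n) => X.H (a + k, b + k)) k hk
    · have : X.H (a + k, b + k) = ⊥ := by
        rw [Finset.mem_Icc] at hk
        by_cases h1 : a + k < 0 ∨ b + k < 0
        · exact X.van _ _ h1
        · exact X.van_top (by omega)
      rw [this]
      exact bot_le
  · exact iSup₂_le fun k _ => le_iSup (fun k : ℤ => X.H (a + k, b + k)) k

theorem KRing.h_symm {p q : ℤ} (k : ℕ) (h : p + q + k = n) : X.h p q = X.h (p + k) (q + k) := by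
  let f : X.H (p, q) →ₗ[ℂ] X.H (p + k, q + k) :=
    { toFun := fun x => ⟨X.ω ^ k * (x : X.R), X.pow_mul_mem X.ω_mem k x.2⟩
      map_add' := fun x y => by ext; simp [mul_add]
      map_smul' := fun a x => by ext; simp }
  refine (LinearEquiv.ofBijective f ⟨?_, ?_⟩).finrank_eq
  · rw [injective_iff_map_eq_zero]
    intro x hx
    have := congrArg Subtype.val hx
    exact Subtype.ext (X.hl_inj p q k h x x.2 this)
  · intro y
    obtain ⟨x, hx, hxy⟩ := X.hl_surj p q k h y y.2
    exact ⟨⟨x, hx⟩, Subtype.ext hxy⟩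

/-- The real form `2 Re ⟨x, bar y⟩`, symmetrised. -/
noncomputable def KRing.beta (X : KRing n) (x y : X.R) : ℝ :=
  (X.mukai x (X.bar y)).re + (X.mukai y (X.bar x)).re

theorem KRing.beta_symm (x y : X.R) : X.beta x y = X.beta y x := by
  unfold KRing.beta
  ring

theorem KRing.beta_add (x y z : X.R) : X.beta (x + y) z = X.beta x z + X.beta y z := by
  unfold KRing.beta
  rw [X.mukai_add_left, map_add, X.mukai_add_right, Complex.add_re, Complex.add_re]
  ring

theorem KRing.beta_add_right (x y z : X.R) : X.beta x (y + z) = X.beta x y + X.beta x z := by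
  rw [X.beta_symm, X.beta_add, X.beta_symm y, X.beta_symm z]

theorem KRing.beta_smul (r : ℝ) (x z : X.R) : X.beta ((r : ℂ) • x) z = r * X.beta x z := by
  unfold KRing.beta
  rw [X.mukai_smul_left, LinearMap.map_smulₛₗ, X.mukai_smul_right, Complex.conj_ofReal,
    Complex.re_ofReal_mul, Complex.re_ofReal_mul]
  ring

theorem KRing.mukai_F {a b : ℤ} (hab : a + b = n) (s t : Finset ℤ)
    (hst : ∀ k ∈ s, ∀ l ∈ t, 0 < k + l) {x y : X.R} (hx : x ∈ X.F a b s) (hy : y ∈ X.F a b t) :
    X.mukai x (X.bar y) = 0 := by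
  let K : Submodule ℂ X.R :=
    { carrier := {x | X.mukai x (X.bar y) = 0}
      add_mem' := fun {u v} hu hv => by
        simp only [Set.mem_ofPred_eq] at *
        rw [X.mukai_add_left, hu, hv, add_zero]
      zero_mem' := by
        have := X.mukai_smul_left 0 0 (X.bar y)
        simpa using this
      smul_mem' := fun c u hu => by
        simp only [Set.mem_ofPred_eq] at *
        rw [X.mukai_smul_left, hu, mul_zero] }
  suffices h : X.F a b s ≤ K from h hx
  refine iSup₂_le fun k hk x hx => ?_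
  show X.mukai x (X.bar y) = 0
  let L : Submodule ℂ X.R :=
    { carrier := {y | X.mukai x (X.bar y) = 0}
      add_mem' := fun {u v} hu hv => by
        simp only [Set.mem_ofPred_eq] at *
        rw [map_add, X.mukai_add_right, hu, hv, add_zero]
      zero_mem' := by
        have := X.mukai_smul_right 0 x 0
        simpa using this
      smul_mem' := fun c u hu => by
        simp only [Set.mem_ofPred_eq] at *
        rw [LinearMap.map_smulₛₗ, X.mukai_smul_right, hu, mul_zero] }
  suffices h : X.F a b t ≤ L from h hy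
  refine iSup₂_le fun l hl y hy => ?_
  show X.mukai x (X.bar y) = 0
  exact X.mukai_zero hx (X.bar_mem _ _ _ hy) (by have := hst k hk l hl; omega)

theorem KRing.beta_F {a b : ℤ} (hab : a + b = n) (s t : Finset ℤ)
    (hst : ∀ k ∈ s, ∀ l ∈ t, 0 < k + l) {x y : X.R} (hx : x ∈ X.F a b s) (hy : y ∈ X.F a b t) :
    X.beta x y = 0 := by
  unfold KRing.beta
  rw [X.mukai_F hab s t hst hx hy,
    X.mukai_F hab t s (fun k hk l hl => by rw [add_comm]; exact hst l hl k hk) hy hx]
  simp

theorem KRing.mem_F {a b : ℤ} {s : Finset ℤ} {k : ℤ} (hk : k ∈ s) {x : X.R}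
    (hx : x ∈ X.H (a + k, b + k)) : x ∈ X.F a b s :=
  (le_iSup₂ (f := fun k (_ : k ∈ s) => X.H (a + k, b + k)) k hk) hx

theorem KRing.beta_nondeg {a b : ℤ} (hab : a + b = n) {x : X.R}
    (hx : x ∈ ⨆ k : ℤ, X.H (a + k, b + k))
    (h : ∀ y ∈ ⨆ k : ℤ, X.H (a + k, b + k), X.beta x y = 0) : x = 0 := by
  classical
  rw [Submodule.mem_iSup_iff_exists_finsupp] at hx
  obtain ⟨f, hf, hfx⟩ := hx
  by_contra hne
  have hsupp : f.support.Nonempty := by
    rw [Finset.nonempty_iff_ne_empty]
    intro h0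
    apply hne
    rw [← hfx, Finsupp.sum, h0, Finset.sum_empty]
  set k0 := f.support.min' hsupp with hk0
  have hk0m : k0 ∈ f.support := Finset.min'_mem _ _
  have hz : f k0 ≠ 0 := Finsupp.mem_support_iff.mp hk0m
  -- Poincaré duality
  obtain ⟨w, hw, hzw⟩ : ∃ w ∈ X.H (n - (a + k0), n - (b + k0)), X.tr (f k0 * w) ≠ 0 := by
    by_contra hcon
    push Not at hcon
    exact hz (X.pd _ _ _ (hf k0) hcon)
  set τ := X.mukai (f k0) w with hτ
  have hτ0 : τ ≠ 0 := by
    rw [hτ, X.mukai_top (hf k0) hw (by ring)]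
    exact mul_ne_zero (zpow_ne_zero _ Complex.I_ne_zero) hzw
  have hbw : X.bar w ∈ X.H (a - k0, b - k0) := by
    have := X.bar_mem _ _ _ hw
    have e1 : (n : ℤ) - (b + k0) = a - k0 := by omega
    have e2 : (n : ℤ) - (a + k0) = b - k0 := by omega
    rwa [e1, e2] at this
  set y := τ • X.bar w with hy
  have hyH : y ∈ X.H (a - k0, b - k0) := Submodule.smul_mem _ _ hbw
  have hyT : y ∈ ⨆ k : ℤ, X.H (a + k, b + k) := by
    have e : ((a - k0, b - k0) : ℤ × ℤ) = (a + -k0, b + -k0) := by simp [sub_eq_add_neg]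
    rw [e] at hyH
    exact Submodule.mem_iSup_of_mem (-k0) hyH
  have hmz : X.mukai (f k0) (X.bar y) = conj τ * τ := by
    rw [hy, LinearMap.map_smulₛₗ, X.bar_bar, X.mukai_smul_right]
  have hyF : y ∈ X.F a b {-k0} := by
    refine X.mem_F (Finset.mem_singleton_self _) ?_
    have e : ((a - k0, b - k0) : ℤ × ℤ) = (a + -k0, b + -k0) := by simp [sub_eq_add_neg]
    rw [← e]
    exact hyH
  have hsplit : x = f k0 + ∑ k ∈ f.support.erase k0, f k := by
    rw [← hfx, Finsupp.sum, Finset.add_sum_erase _ _ hk0m]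
  have hrest : X.beta (∑ k ∈ f.support.erase k0, f k) y = 0 := by
    refine X.beta_F hab (f.support.erase k0) {-k0} ?_ ?_ hyF
    · intro k hk l hl
      rw [Finset.mem_singleton] at hl
      have h1 : k0 ≤ k := Finset.min'_le _ _ (Finset.mem_of_mem_erase hk)
      have h2 : k ≠ k0 := Finset.ne_of_mem_erase hk
      omega
    · exact Submodule.sum_mem _ fun k hk => X.mem_F hk (hf k)
  have hb := h y hyT
  rw [hsplit, X.beta_add, hrest, add_zero] at hb
  unfold KRing.beta at hb
  rw [X.mukai_conj hab (hf k0) hyH, hmz] at hb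
  have e3 : conj τ * τ = ((Complex.normSq τ : ℝ) : ℂ) := Complex.normSq_eq_conj_mul_self.symm
  rw [e3] at hb
  simp only [Complex.conj_ofReal, Complex.ofReal_re] at hb
  have := Complex.normSq_pos.mpr hτ0
  linarith

end Pool.Agent.W539.DI
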