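import Pool.Agent.W539.DI.Form

open scoped ComplexConjugate
open Module

namespace Pool.Agent.W539.DI

variable {n : ℕ} (X : KRing n)

/-- The Hodge-Riemann form on classes of type `(p, q)` with `p + q = n - k`. -/
noncomputable def KRing.S (X : KRing n) (p q : ℤ) (k : ℕ) (x y : X.R) : ℂ :=
  Complex.I ^ (p - q) * (-1 : ℂ) ^ ((p + q) * (p + q - 1) / 2) * X.tr (X.ω ^ k * (x * X.bar y))

/-- Alternating sums of Hodge numbers. -/
noncomputable def KRing.A (X : KRing n) : ℕ → ℤ → ℤ → ℤ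
  | 0, _, _ => 0
  | r + 1, p, q => X.h p q - X.A r (p - 1) (q - 1)

theorem finrank_map_of_inj {V : Type*} [AddCommGroup V] [Module ℂ V] [FiniteDimensional ℂ V]
    (f : V →ₗ[ℂ] V) (N : Submodule ℂ V) (h : ∀ x ∈ N, f x = 0 → x = 0) :
    finrank ℂ (Submodule.map f N) = finrank ℂ N := by
  have hinj : Function.Injective (f.domRestrict N) := by
    rw [injective_iff_map_eq_zero]
    intro x hx
    exact Subtype.ext (h x x.2 hx)
  have := LinearMap.finrank_range_of_inj hinj
  rw [LinearMap.range_domRestrict] at this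
  exact this

theorem sign_rec (s : ℤ) : (-1 : ℂ) ^ (s * (s - 1) / 2) = -(-1 : ℂ) ^ ((s - 2) * (s - 2 - 1) / 2) := by
  obtain ⟨t, ht⟩ : ∃ t : ℤ, s * (s - 1) = 2 * t := by
    obtain ⟨t, ht⟩ := Int.even_mul_pred_self s
    exact ⟨t, by rw [ht]; ring⟩
  have h2 : (s - 2) * (s - 2 - 1) = 2 * (t - (2 * s - 3)) := by linarith [ht, show (s - 2) * (s - 2 - 1) = s * (s - 1) - 2 * (2 * s - 3) by ring]
  rw [ht, h2, Int.mul_ediv_cancel_left _ (by norm_num), Int.mul_ediv_cancel_left _ (by norm_num),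
    zpow_sub₀ (by norm_num)]
  have h3 : (-1 : ℂ) ^ (2 * s - 3) = -1 := by
    have : Odd (2 * s - 3) := ⟨s - 2, by ring⟩
    exact Odd.neg_one_zpow this
  rw [h3]
  ring

theorem KRing.S_mul (p q : ℤ) (k : ℕ) (u v : X.R) :
    X.S p q k (X.ω * u) (X.ω * v) = - X.S (p - 1) (q - 1) (k + 2) u v := by
  unfold KRing.S
  have e1 : X.ω ^ k * (X.ω * u * X.bar (X.ω * v)) = X.ω ^ (k + 2) * (u * X.bar v) := by
    rw [X.bar_mul, X.ω_bar]
    have hc : u * (X.ω * X.bar v) = X.ω * (u * X.bar v) := by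
      rw [← mul_assoc, ← X.central X.ω_mem u, mul_assoc]
    calc X.ω ^ k * (X.ω * u * (X.ω * X.bar v)) = X.ω ^ k * (X.ω * (u * (X.ω * X.bar v))) := by
          rw [mul_assoc X.ω u]
      _ = X.ω ^ (k + 2) * (u * X.bar v) := by
          rw [hc, pow_add, pow_two]
          simp only [mul_assoc]
  rw [e1, sign_rec (p + q)]
  have e2 : (p - 1 + (q - 1) : ℤ) = p + q - 2 := by ring
  have e3 : (p - 1 - (q - 1) : ℤ) = p - q := by ring
  rw [e2, e3]
  ring

theorem KRing.S_add (p q : ℤ) (k : ℕ) (x y z : X.R) :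
    X.S p q k (x + y) z = X.S p q k x z + X.S p q k y z := by
  unfold KRing.S
  rw [add_mul x y, mul_add (X.ω ^ k), map_add]
  ring

theorem KRing.S_add_right (p q : ℤ) (k : ℕ) (x y z : X.R) :
    X.S p q k x (y + z) = X.S p q k x y + X.S p q k x z := by
  unfold KRing.S
  rw [map_add, mul_add x, mul_add (X.ω ^ k), map_add]
  ring

theorem KRing.pow_central (k : ℕ) (x : X.R) : X.ω ^ k * x = x * X.ω ^ k := by
  induction k with
  | zero => simp
  | succ k ih => rw [pow_succ, mul_assoc, X.central X.ω_mem, ← mul_assoc, ih, mul_assoc]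

theorem KRing.bar_pow (k : ℕ) (x : X.R) : X.bar (X.ω ^ k * x) = X.ω ^ k * X.bar x := by
  induction k with
  | zero => simp
  | succ k ih =>
    rw [pow_succ', mul_assoc, X.bar_mul, X.ω_bar, ih, mul_assoc]

theorem KRing.S_prim_left (p q : ℤ) (k : ℕ) (u v : X.R) (hu : X.ω ^ (k + 1) * u = 0) :
    X.S p q k u (X.ω * v) = 0 := by
  unfold KRing.S
  have e1 : X.ω ^ k * (u * X.bar (X.ω * v)) = 0 := by
    rw [X.bar_mul, X.ω_bar]
    calc X.ω ^ k * (u * (X.ω * X.bar v)) = (X.ω ^ (k + 1) * u) * X.bar v := by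
          rw [pow_succ, ← mul_assoc u, ← X.central X.ω_mem u]
          simp only [mul_assoc]
      _ = 0 := by rw [hu, zero_mul]
  rw [e1, map_zero, mul_zero]

theorem KRing.S_prim_right (p q : ℤ) (k : ℕ) (u v : X.R) (hu : X.ω ^ (k + 1) * u = 0) :
    X.S p q k (X.ω * v) u = 0 := by
  unfold KRing.S
  have hb : X.ω ^ (k + 1) * X.bar u = 0 := by rw [← X.bar_pow, hu, map_zero]
  have e1 : X.ω ^ k * (X.ω * v * X.bar u) = 0 := by
    calc X.ω ^ k * (X.ω * v * X.bar u) = v * (X.ω ^ (k + 1) * X.bar u) := by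
          rw [← mul_assoc, ← mul_assoc, ← pow_succ, X.pow_central (k + 1) v, mul_assoc]
      _ = 0 := by rw [hb, mul_zero]
  rw [e1, map_zero, mul_zero]

/-- Definite decomposition of the Hodge-Riemann form, with the dimension of the positive part. -/
theorem KRing.definite : ∀ (r : ℕ) (p q : ℤ) (k : ℕ), p + q + k = n → p < r →
    ∃ M₁ M₂ : Submodule ℂ X.R, M₁ ≤ X.H (p, q) ∧ M₂ ≤ X.H (p, q) ∧
      (∀ x ∈ M₁, x ≠ 0 → 0 < (X.S p q k x x).re) ∧
      (∀ x ∈ M₂, x ≠ 0 → (X.S p q k x x).re < 0) ∧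
      finrank ℂ M₁ + finrank ℂ M₂ = X.h p q ∧ (finrank ℂ M₁ : ℤ) = X.A r p q := by
  intro r
  induction r with
  | zero =>
    intro p q k _ hp
    have hb : X.H (p, q) = ⊥ := X.van p q (Or.inl (by simpa using hp))
    refine ⟨⊥, ⊥, bot_le, bot_le, ?_, ?_, ?_, ?_⟩
    · intro x hx h0
      exact absurd ((Submodule.mem_bot ℂ).mp hx) h0
    · intro x hx h0
      exact absurd ((Submodule.mem_bot ℂ).mp hx) h0
    · unfold KRing.h
      rw [hb]
      simp
    · simp [KRing.A]
  | succ r ih =>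
    intro p q k hk hp
    obtain ⟨N₁, N₂, hN₁, hN₂, pos, neg, hsum, hA⟩ :=
      ih (p - 1) (q - 1) (k + 2) (by push_cast; omega) (by push_cast at hp; omega)
    have hk2 : (p - 1 : ℤ) + (q - 1) + ((k + 2 : ℕ) : ℤ) = n := by push_cast; omega
    have hinj : ∀ x ∈ X.H (p - 1, q - 1), X.ω * x = 0 → x = 0 := by
      intro x hx h0
      refine X.hl_inj (p - 1) (q - 1) (k + 2) hk2 x hx ?_
      rw [show k + 2 = (k + 1) + 1 from rfl, pow_succ, mul_assoc, h0, mul_zero]
    have hωmem : ∀ x ∈ X.H (p - 1, q - 1), X.ω * x ∈ X.H (p, q) := by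
      intro x hx
      have := X.mul_mem X.ω_mem hx
      have e : ((1 + (p - 1), 1 + (q - 1)) : ℤ × ℤ) = (p, q) := by ext <;> simp
      rwa [e] at this
    let P : Submodule ℂ X.R := X.H (p, q) ⊓ LinearMap.ker (LinearMap.mulLeft ℂ (X.ω ^ (k + 1)))
    have hP : ∀ x ∈ P, x ∈ X.H (p, q) ∧ X.ω ^ (k + 1) * x = 0 := fun x hx => ⟨hx.1, hx.2⟩
    let L : Submodule ℂ X.R → Submodule ℂ X.R := fun N => Submodule.map (LinearMap.mulLeft ℂ X.ω) N
    have hL : ∀ N, N ≤ X.H (p - 1, q - 1) → finrank ℂ (L N) = finrank ℂ N := fun N hN =>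
      finrank_map_of_inj _ _ fun x hx h0 => hinj x (hN hx) h0
    have hLle : ∀ N, N ≤ X.H (p - 1, q - 1) → L N ≤ X.H (p, q) := by
      rintro N hN _ ⟨x, hx, rfl⟩
      exact hωmem x (hN hx)
    have hdis : ∀ N, N ≤ X.H (p - 1, q - 1) → P ⊓ L N = ⊥ := by
      intro N hN
      rw [eq_bot_iff]
      rintro y ⟨hy1, x, hx, rfl⟩
      have h1 := (hP _ hy1).2
      have h2 : X.ω ^ (k + 2) * x = 0 := by
        have e : X.ω ^ (k + 2) * x = X.ω ^ (k + 1) * (X.ω * x) := by
          rw [show k + 2 = (k + 1) + 1 from rfl, pow_succ, mul_assoc]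
        rw [e]
        exact h1
      have := X.hl_inj (p - 1) (q - 1) (k + 2) hk2 x (hN hx) h2
      rw [this]
      simp
    have hall : P ⊔ L (X.H (p - 1, q - 1)) = X.H (p, q) := by
      apply le_antisymm
      · exact sup_le inf_le_left (hLle _ le_rfl)
      · intro x hx
        have hmem : X.ω ^ (k + 1) * x ∈ X.H (p - 1 + ((k + 2 : ℕ) : ℤ), q - 1 + ((k + 2 : ℕ) : ℤ)) := by
          have := X.pow_mul_mem X.ω_mem (k + 1) hx
          have e : ((p + ((k + 1 : ℕ) : ℤ), q + ((k + 1 : ℕ) : ℤ)) : ℤ × ℤ) =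
              (p - 1 + ((k + 2 : ℕ) : ℤ), q - 1 + ((k + 2 : ℕ) : ℤ)) := by
            ext <;> push_cast <;> ring
          rwa [e] at this
        obtain ⟨y, hy, hxy⟩ := X.hl_surj (p - 1) (q - 1) (k + 2) hk2 _ hmem
        rw [Submodule.mem_sup]
        refine ⟨x - X.ω * y, ⟨?_, ?_⟩, X.ω * y, ⟨y, hy, rfl⟩, by abel⟩
        · exact Submodule.sub_mem _ hx (hωmem y hy)
        · show X.ω ^ (k + 1) * (x - X.ω * y) = 0
          rw [mul_sub, ← hxy]
          rw [show k + 2 = (k + 1) + 1 from rfl, pow_succ, mul_assoc, sub_self]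
    have hdimP : finrank ℂ P + X.h (p - 1) (q - 1) = X.h p q := by
      have h1 := Submodule.finrank_sup_add_finrank_inf_eq P (L (X.H (p - 1, q - 1)))
      rw [hall, hdis _ le_rfl, finrank_bot, add_zero, hL _ le_rfl] at h1
      exact h1.symm
    have hdimM : finrank ℂ (P ⊔ L N₂ : Submodule ℂ X.R) = finrank ℂ P + finrank ℂ N₂ := by
      have h1 := Submodule.finrank_sup_add_finrank_inf_eq P (L N₂)
      rw [hdis _ hN₂, finrank_bot, add_zero, hL _ hN₂] at h1
      exact h1
    have hdimL : finrank ℂ (L N₁) = finrank ℂ N₁ := hL _ hN₁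
    refine ⟨P ⊔ L N₂, L N₁, sup_le inf_le_left (hLle _ hN₂), hLle _ hN₁, ?_, ?_, ?_, ?_⟩
    · intro x hx hx0
      rw [Submodule.mem_sup] at hx
      obtain ⟨u, hu, _, ⟨v, hv, rfl⟩, rfl⟩ := hx
      have hu2 := hP u hu
      simp only [LinearMap.mulLeft_apply] at hx0 ⊢
      have e : X.S p q k (u + X.ω * v) (u + X.ω * v) =
          X.S p q k u u - X.S (p - 1) (q - 1) (k + 2) v v := by
        rw [X.S_add, X.S_add_right, X.S_add_right, X.S_prim_left p q k u v hu2.2,
          X.S_prim_right p q k u v hu2.2, X.S_mul]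
        ring
      rw [e, Complex.sub_re]
      have hupos : u ≠ 0 → 0 < (X.S p q k u u).re := by
        intro h0
        obtain ⟨t, ht, he⟩ := X.hr p q k hk u hu2.1 h0 hu2.2
        unfold KRing.S
        rw [he]
        simpa using ht
      have hvneg : v ≠ 0 → (X.S (p - 1) (q - 1) (k + 2) v v).re < 0 := neg v hv
      by_cases hu0 : u = 0
      · have hv0 : v ≠ 0 := by
          rintro rfl
          apply hx0
          rw [hu0]
          simp
        have := hvneg hv0
        have z : (X.S p q k u u).re = 0 := by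
          rw [hu0]
          unfold KRing.S
          simp
        rw [z]
        linarith
      · by_cases hv0 : v = 0
        · have z : (X.S (p - 1) (q - 1) (k + 2) v v).re = 0 := by
            rw [hv0]
            unfold KRing.S
            simp
          rw [z]
          have := hupos hu0
          linarith
        · have := hupos hu0
          have := hvneg hv0
          linarith
    · rintro x ⟨v, hv, rfl⟩ hx0
      simp only [LinearMap.mulLeft_apply] at hx0 ⊢
      rw [X.S_mul, Complex.neg_re]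
      have hv0 : v ≠ 0 := by
        rintro rfl
        exact hx0 (by simp)
      have := pos v hv hv0
      linarith
    · rw [hdimM, hdimL]
      omega
    · have hA' : X.A (r + 1) p q = X.h p q - X.A r (p - 1) (q - 1) := rfl
      rw [hdimM, hA', ← hA]
      push_cast
      omega

end Pool.Agent.W539.DI
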