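import Pool.Agent.W539.DI.Five2

open scoped ComplexConjugate
open Module

namespace Pool.Agent.W539.DI

variable {n : ℕ}

/-- Columns of the wrong parity: the sum over the degrees below the middle. -/
theorem FM.half {X Y : KRing n} (Φ : FM X Y) (p q : ℤ) (hpq : p + q = n - 1) :
    ∑ k ∈ Finset.range n, X.h (p - k) (q - k) = ∑ k ∈ Finset.range n, Y.h (p - k) (q - k) := by
  classical
  -- the column is `k ∈ [-(n-1), n]`
  have hs : ∀ k : ℤ, k ∉ Finset.Icc (-(n : ℤ) + 1) n →
      p + k < 0 ∨ q + k < 0 ∨ (n : ℤ) < p + k ∨ (n : ℤ) < q + k := by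
    intro k hk
    rw [Finset.mem_Icc] at hk
    omega
  have key : ∀ Z : KRing n, ∑ k ∈ Finset.Icc (-(n : ℤ) + 1) n, Z.h (p + k) (q + k) =
      2 * ∑ k ∈ Finset.range n, Z.h (p - k) (q - k) := by
    intro Z
    have e1 : Finset.Icc (-(n : ℤ) + 1) n = (Finset.range n).image (fun k : ℕ => -(k : ℤ)) ∪
        (Finset.range n).image (fun k : ℕ => (k : ℤ) + 1) := by
      ext k
      rw [Finset.mem_Icc, Finset.mem_union, Finset.mem_image, Finset.mem_image]
      constructor
      · intro hk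
        rcases le_or_gt k 0 with h | h
        · left
          exact ⟨(-k).toNat, by rw [Finset.mem_range]; omega, by omega⟩
        · right
          exact ⟨(k - 1).toNat, by rw [Finset.mem_range]; omega, by omega⟩
      · rintro (⟨i, hi, rfl⟩ | ⟨i, hi, rfl⟩) <;> rw [Finset.mem_range] at hi <;> omega
    rw [e1, Finset.sum_union, Finset.sum_image (fun i _ j _ h => by
        have : -(i : ℤ) = -(j : ℤ) := h
        omega), Finset.sum_image (fun i _ j _ h => by
        have : (i : ℤ) + 1 = (j : ℤ) + 1 := h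
        omega)]
    · have e2 : ∑ i ∈ Finset.range n, Z.h (p + ((i : ℤ) + 1)) (q + ((i : ℤ) + 1)) =
          ∑ i ∈ Finset.range n, Z.h (p - i) (q - i) := by
        refine Finset.sum_congr rfl fun i _ => ?_
        have := Z.h_symm (p := p - i) (q := q - i) (2 * i + 1) (by push_cast; omega)
        rw [this]
        congr 1 <;> push_cast <;> ring
      rw [e2]
      have e3 : ∑ i ∈ Finset.range n, Z.h (p + -(i : ℤ)) (q + -(i : ℤ)) =
          ∑ i ∈ Finset.range n, Z.h (p - i) (q - i) :=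
        Finset.sum_congr rfl fun i _ => by rw [← sub_eq_add_neg, ← sub_eq_add_neg]
      rw [e3]
      ring
    · rw [Finset.disjoint_left]
      intro k hk hk2
      rw [Finset.mem_image] at hk hk2
      obtain ⟨i, _, rfl⟩ := hk
      obtain ⟨j, _, hj⟩ := hk2
      have : (j : ℤ) + 1 = -(i : ℤ) := hj
      omega
  have := Φ.total_all p q (Finset.Icc (-(n : ℤ) + 1) n) hs
  rw [key X, key Y] at this
  omega

/-- The Hodge numbers of degree at most `n - 3` determine all the others. -/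
theorem FM.low {X Y : KRing n} (Φ : FM X Y)
    (h : ∀ p q : ℤ, p + q ≤ n - 3 → X.h p q = Y.h p q) (p q : ℤ) : X.h p q = Y.h p q := by
  have split : ∀ f : ℕ → ℕ, 1 ≤ n → ∑ i ∈ Finset.range n, f i =
      ∑ i ∈ Finset.range (n - 1), f (i + 1) + f 0 := by
    intro f hn
    obtain ⟨m, rfl⟩ : ∃ m, n = m + 1 := ⟨n - 1, by omega⟩
    rw [Finset.sum_range_succ']
    rfl
  have neg : ∀ p q : ℤ, p < 0 ∨ q < 0 → X.h p q = Y.h p q := fun p q h => by
    rw [X.h_neg h, Y.h_neg h]
  have m2 : ∀ p q : ℤ, p + q = n - 2 → X.h p q = Y.h p q := by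
    intro p q hpq
    by_cases hn : p < 0 ∨ q < 0
    · exact neg p q hn
    have hn1 : 1 ≤ n := by omega
    obtain ⟨h1, -⟩ := Φ.hodge_sums (p + 1).toNat (q + 1).toNat (by omega)
    rw [split _ hn1, split _ hn1] at h1
    have e : ∑ i ∈ Finset.range (n - 1),
        X.h (((p + 1).toNat : ℤ) - 1 - 2 * ((i + 1 : ℕ) : ℤ))
          (((q + 1).toNat : ℤ) - 1 - 2 * ((i + 1 : ℕ) : ℤ)) = ∑ i ∈ Finset.range (n - 1),
        Y.h (((p + 1).toNat : ℤ) - 1 - 2 * ((i + 1 : ℕ) : ℤ))
          (((q + 1).toNat : ℤ) - 1 - 2 * ((i + 1 : ℕ) : ℤ)) :=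
      Finset.sum_congr rfl fun i _ => h _ _ (by push_cast; omega)
    rw [e] at h1
    have h2 := Nat.add_left_cancel h1
    have e1 : ((p + 1).toNat : ℤ) - 1 - 2 * ((0 : ℕ) : ℤ) = p := by push_cast; omega
    have e2 : ((q + 1).toNat : ℤ) - 1 - 2 * ((0 : ℕ) : ℤ) = q := by push_cast; omega
    rw [e1, e2] at h2
    exact h2
  have m1 : ∀ p q : ℤ, p + q = n - 1 → X.h p q = Y.h p q := by
    intro p q hpq
    by_cases hn : p < 0 ∨ q < 0
    · exact neg p q hn
    have hn1 : 1 ≤ n := by omega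
    have h1 := Φ.half p q hpq
    rw [split _ hn1, split _ hn1] at h1
    have e : ∑ i ∈ Finset.range (n - 1), X.h (p - ((i + 1 : ℕ) : ℤ)) (q - ((i + 1 : ℕ) : ℤ)) =
        ∑ i ∈ Finset.range (n - 1), Y.h (p - ((i + 1 : ℕ) : ℤ)) (q - ((i + 1 : ℕ) : ℤ)) :=
      Finset.sum_congr rfl fun i _ => h _ _ (by push_cast; omega)
    rw [e] at h1
    have h2 := Nat.add_left_cancel h1
    simpa using h2
  have m0 : ∀ p q : ℤ, p + q = n → X.h p q = Y.h p q := by
    intro p q hpq
    by_cases hn : p < 0 ∨ q < 0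
    · exact neg p q hn
    obtain ⟨-, h1⟩ := Φ.hodge_sums p.toNat q.toNat (by omega)
    have e : ∑ i ∈ Finset.range n, X.h ((p.toNat : ℤ) - 2 - 2 * i) ((q.toNat : ℤ) - 2 - 2 * i) =
        ∑ i ∈ Finset.range n, Y.h ((p.toNat : ℤ) - 2 - 2 * i) ((q.toNat : ℤ) - 2 - 2 * i) :=
      Finset.sum_congr rfl fun i _ => h _ _ (by omega)
    rw [e] at h1
    have h2 := Nat.add_right_cancel h1
    have e1 : (p.toNat : ℤ) = p := by omega
    have e2 : (q.toNat : ℤ) = q := by omega
    rw [e1, e2] at h2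
    exact h2
  have all : ∀ p q : ℤ, p + q ≤ n → X.h p q = Y.h p q := by
    intro p q hpq
    rcases le_or_gt (p + q) (n - 3) with h1 | h1
    · exact h p q h1
    · have : p + q = n - 2 ∨ p + q = n - 1 ∨ p + q = n := by omega
      rcases this with h2 | h2 | h2
      · exact m2 p q h2
      · exact m1 p q h2
      · exact m0 p q h2
  rcases le_or_gt (p + q) n with h1 | h1
  · exact all p q h1
  · have e : ∀ Z : KRing n, Z.h p q = Z.h (p - (p + q - n)) (q - (p + q - n)) := by
      intro Z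
      have := Z.h_symm (p := p - (p + q - n)) (q := q - (p + q - n)) (p + q - n).toNat (by omega)
      rw [this]
      congr 1 <;> omega
    rw [e X, e Y]
    exact all _ _ (by omega)

/-- Pairs of derived equivalent varieties with towers of derived equivalent pluricanonical
divisors, such that the restriction to the divisor is an isomorphism of cohomology in the degrees
at most `dim - 3`, down to dimension at most four. -/
inductive Tower : (n : ℕ) → KRing n → KRing n → Prop
  | base {n : ℕ} (X Y : KRing n) : n ≤ 4 → Nonempty (FM X Y) → X.h 1 0 = Y.h 1 0 → Tower n X Y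
  | step {n : ℕ} (X Y : KRing (n + 1)) (D E : KRing n) : Nonempty (FM X Y) → Tower n D E →
      (∀ p q : ℤ, p + q ≤ n - 2 → X.h p q = D.h p q ∧ Y.h p q = E.h p q) → Tower (n + 1) X Y

theorem Tower.eq {X Y : KRing n} (h : Tower n X Y) : ∀ p q : ℤ, X.h p q = Y.h p q := by
  induction h with
  | base X Y hn hΦ h10 =>
    obtain ⟨Φ⟩ := hΦ
    refine Φ.low fun p q hpq => ?_
    by_cases hneg : p < 0 ∨ q < 0
    · rw [X.h_neg hneg, Y.h_neg hneg]
    have : (p = 0 ∧ q = 0) ∨ (p = 1 ∧ q = 0) ∨ (p = 0 ∧ q = 1) := by omega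
    rcases this with ⟨rfl, rfl⟩ | ⟨rfl, rfl⟩ | ⟨rfl, rfl⟩
    · rw [X.h00, Y.h00]
    · exact h10
    · rw [X.h_swap, Y.h_swap]
      exact h10
  | step X Y D E hΦ _ hlow ih =>
    obtain ⟨Φ⟩ := hΦ
    refine Φ.low fun p q hpq => ?_
    obtain ⟨h1, h2⟩ := hlow p q (by push_cast at hpq; omega)
    rw [h1, h2, ih]

end Pool.Agent.W539.DI
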