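import Pool.Agent.W539.DI.HR

open scoped ComplexConjugate
open Module

namespace Pool.Agent.W539.DI

variable {n : ℕ}

/-- positive indices `1, …, N` -/
def sp (N : ℕ) : Finset ℤ := (Finset.range N).image (fun j : ℕ => (j : ℤ) + 1)

/-- negative indices `-1, …, -N` -/
def sm (N : ℕ) : Finset ℤ := (Finset.range N).image (fun j : ℕ => -((j : ℤ) + 1))

theorem mem_sp {N : ℕ} {k : ℤ} : k ∈ sp N ↔ 1 ≤ k ∧ k ≤ N := by
  unfold sp
  rw [Finset.mem_image]
  constructor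
  · rintro ⟨j, hj, rfl⟩
    rw [Finset.mem_range] at hj
    omega
  · rintro ⟨h1, h2⟩
    refine ⟨(k - 1).toNat, ?_, ?_⟩
    · rw [Finset.mem_range]; omega
    · omega

theorem mem_sm {N : ℕ} {k : ℤ} : k ∈ sm N ↔ k ≤ -1 ∧ -(N : ℤ) ≤ k := by
  unfold sm
  rw [Finset.mem_image]
  constructor
  · rintro ⟨j, hj, rfl⟩
    rw [Finset.mem_range] at hj
    omega
  · rintro ⟨h1, h2⟩
    refine ⟨(-k - 1).toNat, ?_, ?_⟩
    · rw [Finset.mem_range]; omega
    · omega

theorem sum_sp (N : ℕ) (g : ℤ → ℕ) : ∑ k ∈ sp N, g k = ∑ j ∈ Finset.range N, g ((j : ℤ) + 1) := by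
  unfold sp
  rw [Finset.sum_image]
  intro i _ j _ h
  have : (i : ℤ) + 1 = (j : ℤ) + 1 := h
  omega

theorem sum_sm (N : ℕ) (g : ℤ → ℕ) :
    ∑ k ∈ sm N, g k = ∑ j ∈ Finset.range N, g (-((j : ℤ) + 1)) := by
  unfold sm
  rw [Finset.sum_image]
  intro i _ j _ h
  have : -((i : ℤ) + 1) = -((j : ℤ) + 1) := h
  omega

theorem KRing.F_all' (X : KRing n) {a b : ℤ} (hab : a + b = n) (s : Finset ℤ)
    (hs : ∀ k, k ∉ s → k < -(n : ℤ) ∨ (n : ℤ) < k) :
    (⨆ k : ℤ, X.H (a + k, b + k)) = X.F a b s := by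
  apply le_antisymm
  · refine iSup_le fun k => ?_
    by_cases hk : k ∈ s
    · exact le_iSup₂ (f := fun k (_ : k ∈ s) => X.H (a + k, b + k)) k hk
    · have : X.H (a + k, b + k) = ⊥ := by
        have hk' := hs k hk
        by_cases h1 : a + k < 0 ∨ b + k < 0
        · exact X.van _ _ h1
        · exact X.van_top (by omega)
      rw [this]
      exact bot_le
  · exact iSup₂_le fun k _ => le_iSup (fun k : ℤ => X.H (a + k, b + k)) k

/-- Half of the off-middle dimension. -/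
noncomputable def KRing.f (X : KRing n) (a b : ℤ) : ℕ :=
  ∑ j ∈ Finset.range (2 * n), X.h (a - ((j : ℤ) + 1)) (b - ((j : ℤ) + 1))

theorem KRing.f_eq (X : KRing n) {a b : ℤ} (hab : a + b = n) :
    finrank ℂ (X.F a b (sp (2 * n))) = X.f a b := by
  rw [X.finrank_F, sum_sp]
  unfold KRing.f
  refine Finset.sum_congr rfl fun j _ => ?_
  have := X.h_symm (p := a - ((j : ℤ) + 1)) (q := b - ((j : ℤ) + 1)) (2 * (j + 1))
    (by push_cast; omega)
  rw [this]
  congr 1 <;> push_cast <;> ring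

theorem KRing.total (X : KRing n) {a b : ℤ} (hab : a + b = n) :
    finrank ℂ (⨆ k : ℤ, X.H (a + k, b + k) : Submodule ℂ X.R) = 2 * X.f a b + X.h a b := by
  classical
  rw [X.F_all' hab (sm (2 * n) ∪ ({0} ∪ sp (2 * n))), X.finrank_F, Finset.sum_union,
    Finset.sum_union, Finset.sum_singleton, ← X.finrank_F, ← X.finrank_F, X.f_eq hab,
    X.finrank_F, sum_sm, add_zero, add_zero]
  · have : ∑ j ∈ Finset.range (2 * n), X.h (a + -((j : ℤ) + 1)) (b + -((j : ℤ) + 1)) = X.f a b := by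
      unfold KRing.f
      refine Finset.sum_congr rfl fun j _ => ?_
      rw [sub_eq_add_neg, sub_eq_add_neg]
    rw [this]
    ring
  · rw [Finset.disjoint_left]
    intro k hk hk2
    rw [Finset.mem_singleton] at hk
    rw [mem_sp] at hk2
    omega
  · rw [Finset.disjoint_left]
    intro k hk hk2
    rw [mem_sm] at hk
    rw [Finset.mem_union, Finset.mem_singleton, mem_sp] at hk2
    omega
  · intro k hk
    rw [Finset.mem_union, Finset.mem_union, Finset.mem_singleton, mem_sp, mem_sm] at hk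
    push_cast at hk
    omega

theorem exists_sign (n : ℕ) (a b : ℤ) (hab : a + b = n) : ∃ e : ℝ, e ≠ 0 ∧
    ∀ X : KRing n,
    ∀ x ∈ X.H (a, b), e * X.beta x x = 2 * (X.S a b 0 x x).re := by
  have hsq : ∀ k : ℤ, (-1 : ℂ) ^ k = 1 ∨ (-1 : ℂ) ^ k = -1 := by
    intro k
    rcases Int.even_or_odd k with h | h
    · exact Or.inl (Even.neg_one_zpow h)
    · exact Or.inr (Odd.neg_one_zpow h)
  have key : ∀ X : KRing n, ∀ x ∈ X.H (a, b), X.S a b 0 x x =
      ((-1 : ℂ) ^ b * (-1 : ℂ) ^ ((a + b) * (a + b - 1) / 2)) * X.mukai x (X.bar x) := by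
    intro X x hx
    rw [X.mukai_top hx (X.bar_mem _ _ _ hx) hab]
    unfold KRing.S
    have hI : Complex.I ^ (a + b) = Complex.I ^ (a - b) * (-1 : ℂ) ^ b := by
      have e : (a + b : ℤ) = (a - b) + 2 * b := by ring
      rw [e, zpow_add₀ Complex.I_ne_zero, zpow_mul]
      congr 2
      rw [show (2 : ℤ) = ((2 : ℕ) : ℤ) from rfl, zpow_natCast, Complex.I_sq]
    rw [hI, pow_zero, one_mul]
    rcases hsq b with h | h <;> rw [h] <;> ring
  rcases hsq b with h1 | h1 <;> rcases hsq ((a + b) * (a + b - 1) / 2) with h2 | h2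
  · refine ⟨1, by norm_num, fun X x hx => ?_⟩
    rw [key X x hx, h1, h2]
    unfold KRing.beta
    simp
    ring
  · refine ⟨-1, by norm_num, fun X x hx => ?_⟩
    rw [key X x hx, h1, h2]
    unfold KRing.beta
    simp
    ring
  · refine ⟨-1, by norm_num, fun X x hx => ?_⟩
    rw [key X x hx, h1, h2]
    unfold KRing.beta
    simp
    ring
  · refine ⟨1, by norm_num, fun X x hx => ?_⟩
    rw [key X x hx, h1, h2]
    unfold KRing.beta
    simp
    ring

theorem KRing.beta_sup (X : KRing n) {a b : ℤ} (hab : a + b = n) {M : Submodule ℂ X.R}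
    (hM : M ≤ X.H (a, b)) {x : X.R} (hx : x ∈ X.F a b (sp (2 * n)) ⊔ M) :
    ∃ m ∈ M, X.beta x x = X.beta m m := by
  rw [Submodule.mem_sup] at hx
  obtain ⟨u, hu, m, hm, rfl⟩ := hx
  refine ⟨m, hm, ?_⟩
  have hmF : m ∈ X.F a b {0} := by
    refine X.mem_F (Finset.mem_singleton_self _) ?_
    rw [add_zero, add_zero]
    exact hM hm
  have h1 : X.beta u u = 0 := X.beta_F hab _ _ (fun k hk l hl => by
    rw [mem_sp] at hk hl; omega) hu hu
  have h2 : X.beta u m = 0 := X.beta_F hab _ _ (fun k hk l hl => by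
    rw [mem_sp] at hk; rw [Finset.mem_singleton] at hl; omega) hu hmF
  rw [X.beta_add, X.beta_add_right, X.beta_add_right, h1, h2, X.beta_symm m u, h2]
  ring

theorem KRing.finrank_sup (X : KRing n) {a b : ℤ} (hab : a + b = n) {M : Submodule ℂ X.R}
    (hM : M ≤ X.H (a, b)) :
    finrank ℂ (X.F a b (sp (2 * n)) ⊔ M : Submodule ℂ X.R) = X.f a b + finrank ℂ M := by
  have hd : Disjoint (X.H (a, b)) (X.F a b (sp (2 * n))) := by
    have := (X.indep a b).disjoint_biSup (x := 0) (y := (sp (2 * n) : Set ℤ))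
      (by
        intro h
        rw [Finset.mem_coe, mem_sp] at h
        omega)
    simp only [add_zero] at this
    exact this
  have hd2 : Disjoint (X.F a b (sp (2 * n))) M := (hd.mono_left hM).symm
  have h1 := Submodule.finrank_sup_add_finrank_inf_eq (X.F a b (sp (2 * n))) M
  rw [hd2.eq_bot, finrank_bot, add_zero, X.f_eq hab] at h1
  exact h1

theorem FM.beta {X Y : KRing n} (Φ : FM X Y) (x y : X.R) :
    Y.beta (Φ.φ x) (Φ.φ y) = X.beta x y := by
  unfold KRing.beta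
  rw [← Φ.real, ← Φ.real, Φ.isom, Φ.isom]

theorem FM.total {X Y : KRing n} (Φ : FM X Y) {a b : ℤ} (hab : a + b = n) :
    2 * X.f a b + X.h a b = 2 * Y.f a b + Y.h a b := by
  rw [← X.total hab, ← Y.total hab, ← Φ.hodge a b]
  exact (LinearEquiv.finrank_map_eq Φ.φ _).symm

/-- The basic inequality. -/
theorem FM.ineq {X Y : KRing n} (Φ : FM X Y) {a b : ℤ} (hab : a + b = n)
    (e : ℝ) (M : Submodule ℂ X.R) (N : Submodule ℂ Y.R) (hM : M ≤ X.H (a, b))
    (hN : N ≤ Y.H (a, b)) (h1 : ∀ x ∈ M, 0 ≤ e * X.beta x x)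
    (h2 : ∀ x ∈ N, e * Y.beta x x ≤ 0) (he : e ≠ 0) :
    X.f a b + finrank ℂ M + (Y.f a b + finrank ℂ N) ≤ 2 * Y.f a b + Y.h a b := by
  have hle : ∀ (Z : KRing n) (M : Submodule ℂ Z.R), M ≤ Z.H (a, b) →
      Z.F a b (sp (2 * n)) ⊔ M ≤ ⨆ k : ℤ, Z.H (a + k, b + k) := by
    intro Z M hM
    refine sup_le ?_ ?_
    · exact iSup₂_le fun k _ => le_iSup (fun k : ℤ => Z.H (a + k, b + k)) k
    · refine le_trans hM ?_
      have := le_iSup (fun k : ℤ => Z.H (a + k, b + k)) 0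
      simpa using this
  have := semi_complex (⨆ k : ℤ, Y.H (a + k, b + k))
    (Submodule.map (Φ.φ : X.R →ₗ[ℂ] Y.R) (X.F a b (sp (2 * n)) ⊔ M))
    (Y.F a b (sp (2 * n)) ⊔ N)
    (by
      rw [← Φ.hodge a b]
      exact Submodule.map_mono (hle X M hM))
    (hle Y N hN) (fun x y => e * Y.beta x y)
    (fun x y z => by
      show e * Y.beta (x + y) z = e * Y.beta x z + e * Y.beta y z
      rw [Y.beta_add]; ring)
    (fun r x z => by
      show e * Y.beta ((r : ℂ) • x) z = r * (e * Y.beta x z)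
      rw [Y.beta_smul]; ring)
    (fun x y => by
      show e * Y.beta x y = e * Y.beta y x
      rw [Y.beta_symm])
    (fun x hx h => Y.beta_nondeg hab hx fun y hy => by
      have := h y hy
      exact (mul_eq_zero.mp this).resolve_left he)
    (by
      rintro _ ⟨x, hx, rfl⟩
      obtain ⟨m, hm, hxm⟩ := X.beta_sup hab hM hx
      show 0 ≤ e * Y.beta (Φ.φ x) (Φ.φ x)
      rw [Φ.beta, hxm]
      exact h1 m hm)
    (by
      intro x hx
      obtain ⟨m, hm, hxm⟩ := Y.beta_sup hab hN hx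
      show e * Y.beta x x ≤ 0
      rw [hxm]
      exact h2 m hm)
  rw [Y.total hab, LinearEquiv.finrank_map_eq, X.finrank_sup hab hM, Y.finrank_sup hab hN] at this
  exact this

theorem FM.main {X Y : KRing n} (Φ : FM X Y) {a b : ℤ} (hab : a + b = n) (r : ℕ) (hr : a < r) :
    (X.f a b : ℤ) + X.A r a b = Y.f a b + Y.A r a b := by
  obtain ⟨e, he, hS⟩ := exists_sign n a b hab
  obtain ⟨M₁, M₂, hM₁, hM₂, p1, p2, hs, hA⟩ := X.definite r a b 0 (by simpa using hab) hr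
  obtain ⟨N₁, N₂, hN₁, hN₂, q1, q2, hs', hA'⟩ := Y.definite r a b 0 (by simpa using hab) hr
  have pos : ∀ (Z : KRing n) (M : Submodule ℂ Z.R), M ≤ Z.H (a, b) →
      (∀ x ∈ M, x ≠ 0 → 0 < (Z.S a b 0 x x).re) → ∀ x ∈ M, 0 ≤ e * Z.beta x x := by
    intro Z M hM h x hx
    rw [hS Z x (hM hx)]
    by_cases h0 : x = 0
    · rw [h0]; unfold KRing.S; simp
    · have := h x hx h0; linarith
  have neg : ∀ (Z : KRing n) (M : Submodule ℂ Z.R), M ≤ Z.H (a, b) →
      (∀ x ∈ M, x ≠ 0 → (Z.S a b 0 x x).re < 0) → ∀ x ∈ M, e * Z.beta x x ≤ 0 := by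
    intro Z M hM h x hx
    rw [hS Z x (hM hx)]
    by_cases h0 : x = 0
    · rw [h0]; unfold KRing.S; simp
    · have := h x hx h0; linarith
  have i1 := Φ.ineq hab e M₁ N₂ hM₁ hN₂ (pos X M₁ hM₁ p1) (neg Y N₂ hN₂ q2) he
  have i2 := Φ.ineq hab (-e) M₂ N₁ hM₂ hN₁
    (fun x hx => by have := neg X M₂ hM₂ p2 x hx; linarith)
    (fun x hx => by have := pos Y N₁ hN₁ q1 x hx; linarith) (neg_ne_zero.mpr he)
  have i3 := Φ.total hab
  omega

theorem KRing.h_neg (X : KRing n) {p q : ℤ} (h : p < 0 ∨ q < 0) : X.h p q = 0 := by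
  unfold KRing.h
  rw [X.van p q h, finrank_bot]

theorem KRing.A_step (X : KRing n) (N : ℕ) : ∀ (p q : ℤ),
    X.A (2 * N + 1) p q = X.h p q + ∑ i ∈ Finset.range N,
      ((X.h (p - 2 - 2 * i) (q - 2 - 2 * i) : ℤ) - X.h (p - 1 - 2 * i) (q - 1 - 2 * i)) := by
  induction N with
  | zero => intro p q; simp [KRing.A]
  | succ N ih =>
    intro p q
    have e : X.A (2 * (N + 1) + 1) p q = X.h p q - (X.h (p - 1) (q - 1) -
        X.A (2 * N + 1) (p - 1 - 1) (q - 1 - 1)) := rfl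
    rw [e, ih, Finset.sum_range_succ']
    have e2 : ∀ i : ℕ, ((X.h (p - 2 - 2 * ((i + 1 : ℕ) : ℤ)) (q - 2 - 2 * ((i + 1 : ℕ) : ℤ)) : ℤ) -
        X.h (p - 1 - 2 * ((i + 1 : ℕ) : ℤ)) (q - 1 - 2 * ((i + 1 : ℕ) : ℤ))) =
        ((X.h (p - 1 - 1 - 2 - 2 * i) (q - 1 - 1 - 2 - 2 * i) : ℤ) -
          X.h (p - 1 - 1 - 1 - 2 * i) (q - 1 - 1 - 1 - 2 * i)) := by
      intro i
      congr 3 <;> push_cast <;> ring
    rw [Finset.sum_congr rfl fun i _ => e2 i]
    have e3 : X.h (p - 1 - 1) (q - 1 - 1) = X.h (p - 2 - 2 * ((0 : ℕ) : ℤ)) (q - 2 - 2 * ((0 : ℕ) : ℤ)) := by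
      congr 1 <;> push_cast <;> ring
    have e4 : X.h (p - 1) (q - 1) = X.h (p - 1 - 2 * ((0 : ℕ) : ℤ)) (q - 1 - 2 * ((0 : ℕ) : ℤ)) := by
      congr 1 <;> push_cast <;> ring
    rw [e3, e4]
    ring

theorem sum_pairs (g : ℕ → ℕ) (N : ℕ) :
    ∑ j ∈ Finset.range (2 * N), g j = ∑ i ∈ Finset.range N, (g (2 * i) + g (2 * i + 1)) := by
  induction N with
  | zero => simp
  | succ N ih =>
    rw [Finset.sum_range_succ, ← ih, show 2 * (N + 1) = 2 * N + 1 + 1 from rfl,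
      Finset.sum_range_succ, Finset.sum_range_succ]
    ring

theorem KRing.f_pairs (X : KRing n) (a b : ℤ) :
    X.f a b = ∑ i ∈ Finset.range n, (X.h (a - 1 - 2 * i) (b - 1 - 2 * i) +
      X.h (a - 2 - 2 * i) (b - 2 - 2 * i)) := by
  unfold KRing.f
  rw [sum_pairs]
  refine Finset.sum_congr rfl fun i _ => ?_
  congr 2 <;> push_cast <;> ring

/-- Derived invariance of combinations of Hodge numbers. -/
theorem FM.hodge_sums {X Y : KRing n} (Φ : FM X Y) (a b : ℕ) (hab : a + b = n) :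
    (∑ i ∈ Finset.range n, X.h (a - 1 - 2 * i) (b - 1 - 2 * i) =
      ∑ i ∈ Finset.range n, Y.h (a - 1 - 2 * i) (b - 1 - 2 * i)) ∧
    (X.h a b + 2 * ∑ i ∈ Finset.range n, X.h (a - 2 - 2 * i) (b - 2 - 2 * i) =
      Y.h a b + 2 * ∑ i ∈ Finset.range n, Y.h (a - 2 - 2 * i) (b - 2 - 2 * i)) := by
  have hab' : (a : ℤ) + b = n := by exact_mod_cast hab
  have h1 := Φ.main hab' (2 * n + 1) (by push_cast; omega)
  have h2 := Φ.total hab'
  rw [X.A_step, Y.A_step, X.f_pairs, Y.f_pairs] at h1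
  rw [X.f_pairs, Y.f_pairs] at h2
  simp only [Finset.sum_add_distrib, Finset.sum_sub_distrib, Nat.cast_add, Nat.cast_sum] at h1 h2
  have c1 : ∀ Z : KRing n, ((∑ i ∈ Finset.range n, Z.h (a - 1 - 2 * i) (b - 1 - 2 * i) : ℕ) : ℤ) =
      ∑ i ∈ Finset.range n, (Z.h (a - 1 - 2 * i) (b - 1 - 2 * i) : ℤ) := fun Z => by push_cast; rfl
  have c2 : ∀ Z : KRing n, ((∑ i ∈ Finset.range n, Z.h (a - 2 - 2 * i) (b - 2 - 2 * i) : ℕ) : ℤ) =
      ∑ i ∈ Finset.range n, (Z.h (a - 2 - 2 * i) (b - 2 - 2 * i) : ℤ) := fun Z => by push_cast; rfl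
  rw [← c1 X, ← c1 Y, ← c2 X, ← c2 Y] at h1
  constructor
  · omega
  · omega

end Pool.Agent.W539.DI
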